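import Mathlib

set_option autoImplicit false

/-! Project CDQ (helper379), problem MP_0f87c6_ag.
Over some imperfect field k of characteristic two with cohomological dimension one there is a
smooth complete intersection of two quadrics in P^5 without k-point. -/

namespace Pool.Agent.H379R3.CDQ

/-- The alternating differential of (homogeneous) cochains. -/
def dd {G M : Type} [AddCommGroup M] {n : ℕ} (h : (Fin n → G) → M) (v : Fin (n + 1) → G) : M :=
  ∑ i : Fin (n + 1), (-1 : ℤ) ^ (i : ℕ) • h (fun j => v (i.succAbove j))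

/-- Homogeneity (equivariance) of a cochain. -/
def Eqv {G M : Type} [Group G] [AddCommGroup M] [DistribMulAction G M] {n : ℕ}
    (h : (Fin n → G) → M) : Prop :=
  ∀ (g : G) (v : Fin n → G), h (fun i => g * v i) = g • h v

/-- `M` is a discrete `G`-module: all stabilisers are open. -/
def IsDisc (G M : Type) [Group G] [TopologicalSpace G] [AddCommGroup M]
    [DistribMulAction G M] : Prop :=
  ∀ x : M, IsOpen (MulAction.stabilizer G x : Set G)

/-- Vanishing of the `n`-th continuous cohomology group (`n ≥ 1`) of `G` in the discrete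
module `M`: each continuous homogeneous cocycle is the differential of a continuous homogeneous
cochain. -/
def HVanish (G M : Type) [Group G] [TopologicalSpace G] [AddCommGroup M]
    [DistribMulAction G M] (n : ℕ) : Prop :=
  ∀ f : (Fin (n + 1) → G) → M, IsLocallyConstant f → Eqv f → (∀ v, dd f v = 0) →
    ∃ h : (Fin n → G) → M, IsLocallyConstant h ∧ Eqv h ∧ ∀ v, f v = dd h v

/-- Cohomological dimension at most `m`. -/
def CdLE (G : Type) [Group G] [TopologicalSpace G] (m : ℕ) : Prop :=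
  ∀ (M : Type) [AddCommGroup M] [DistribMulAction G M], IsDisc G M →
    (∀ x : M, ∃ k : ℕ, 0 < k ∧ k • x = 0) → ∀ n : ℕ, m < n → HVanish G M n

/-- The absolute Galois group `Gal(k_s/k)`, with the Krull topology. -/
abbrev GG (k : Type) [Field k] : Type := SeparableClosure k ≃ₐ[k] SeparableClosure k

/-- `X = {F = G = 0}` is a smooth complete intersection of two quadrics in `P^5` (Jacobian
criterion at all geometric points). -/
def SmoothCI (k : Type) [Field k] (F G : MvPolynomial (Fin 6) k) : Prop :=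
  F.IsHomogeneous 2 ∧ G.IsHomogeneous 2 ∧
    ∀ v : Fin 6 → AlgebraicClosure k, v ≠ 0 → MvPolynomial.aeval v F = 0 →
      MvPolynomial.aeval v G = 0 →
      LinearIndependent (AlgebraicClosure k)
        ![fun i => MvPolynomial.aeval v (MvPolynomial.pderiv i F),
          fun i => MvPolynomial.aeval v (MvPolynomial.pderiv i G)]

/-- The final statement. -/
def Final : Prop :=
  ∃ (k : Type) (_ : Field k) (_ : CharP k 2),
    (CdLE (GG k) 1 ∧ ¬ CdLE (GG k) 0) ∧
    ∃ F G : MvPolynomial (Fin 6) k, SmoothCI k F G ∧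
      ∀ v : Fin 6 → k, v ≠ 0 → ¬ (MvPolynomial.eval v F = 0 ∧ MvPolynomial.eval v G = 0)

/-- The quadratic form `N(x0,x1) + a N(x2,x3) + b N(x4,x5)`, `N(x,y) = x^2+xy+y^2`. -/
def qf {R : Type} [CommRing R] (a b : R) (v : Fin 6 → R) : R :=
  (v 0 ^ 2 + v 0 * v 1 + v 1 ^ 2) + a * (v 2 ^ 2 + v 2 * v 3 + v 3 ^ 2)
    + b * (v 4 ^ 2 + v 4 * v 5 + v 5 ^ 2)

def Anis (K : Type) [Field K] (a b : K) : Prop := ∀ v : Fin 6 → K, qf a b v = 0 → v = 0

/-- No separable extension of odd degree. -/
def OddClosed (k : Type) [Field k] : Prop :=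
  ∀ (E : Type) [Field E] [Algebra k E] [FiniteDimensional k E] [Algebra.IsSeparable k E],
    Odd (Module.finrank k E) → Module.finrank k E = 1

open MvPolynomial in
noncomputable def FP {k : Type} [Field k] (a b : k) : MvPolynomial (Fin 6) k :=
  (X 0 ^ 2 + X 0 * X 1 + X 1 ^ 2) + C a * (X 2 ^ 2 + X 2 * X 3 + X 3 ^ 2)
    + C b * (X 4 ^ 2 + X 4 * X 5 + X 5 ^ 2)

open MvPolynomial in
noncomputable def GP (k : Type) [Field k] : MvPolynomial (Fin 6) k :=
  X 0 * X 1 + X 2 * X 3 + X 4 * X 5

/-- Vanishing of `H^n(G, F_2)` with trivial action. -/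
def F2V (G : Type) [Group G] [TopologicalSpace G] (n : ℕ) : Prop :=
  ∀ f : (Fin (n + 1) → G) → ZMod 2, IsLocallyConstant f →
    (∀ (g : G) (v : Fin (n + 1) → G), f (fun i => g * v i) = f v) → (∀ v, dd f v = 0) →
    ∃ h : (Fin n → G) → ZMod 2, IsLocallyConstant h ∧
      (∀ (g : G) (v : Fin n → G), h (fun i => g * v i) = h v) ∧ ∀ v, f v = dd h v

/-- All open subgroups have index a power of two. -/
def Pro2 (G : Type) [Group G] [TopologicalSpace G] : Prop :=
  ∀ U : Subgroup G, IsOpen (U : Set G) → ∃ m : ℕ, U.index = 2 ^ m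

/-! ### Tasks -/

/-- d d = 0. -/
def TaskDD : Prop :=
  ∀ (G M : Type) [AddCommGroup M] (n : ℕ) (h : (Fin n → G) → M) (v : Fin (n + 1 + 1) → G),
    dd (dd h) v = 0

/-- Right periods in the first coordinate of a locally constant function (tube lemma). -/
def TaskPer : Prop :=
  ∀ (G : Type) [Group G] [TopologicalSpace G] [IsTopologicalGroup G] [CompactSpace G]
    (M : Type) (n : ℕ) (f : (Fin (n + 1) → G) → M), IsLocallyConstant f →
    ∃ U : Subgroup G, IsOpen (U : Set G) ∧ ∀ u ∈ U, ∀ (g : G) (v : Fin n → G),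
      f (Fin.cons (g * u) v : Fin (n + 1) → G) = f (Fin.cons g v : Fin (n + 1) → G)

/-- Averaging. -/
def TaskAvg : Prop :=
  TaskPer → ∀ (G : Type) [Group G] [TopologicalSpace G] [IsTopologicalGroup G] [CompactSpace G]
    (M : Type) [AddCommGroup M] [DistribMulAction G M], IsDisc G M →
    (∀ U : Subgroup G, IsOpen (U : Set G) → ∃ e : G → M →+ M,
      (∀ g, ∀ u ∈ U, e (g * u) = e g) ∧ (∀ g s m, e (g * s) (g • m) = g • e s m) ∧
      ∀ m, ∑ᶠ s : G ⧸ U, e s.out m = m) →
    ∀ n : ℕ, 1 ≤ n → HVanish G M n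

/-- Trace one elements. -/
def TaskTr : Prop :=
  ∀ (k : Type) [Field k] (U : Subgroup (GG k)), IsOpen (U : Set (GG k)) →
    ∃ c : SeparableClosure k, (∀ u ∈ U, u c = c) ∧ ∑ᶠ s : GG k ⧸ U, s.out c = 1

/-- Additive Hilbert 90 in all degrees. -/
def TaskKs : Prop :=
  TaskPer → TaskAvg → TaskTr → ∀ (k : Type) [Field k] (n : ℕ), 1 ≤ n →
    HVanish (GG k) (SeparableClosure k) n

/-- Odd modules. -/
def TaskOdd : Prop :=
  TaskPer → TaskAvg → ∀ (G : Type) [Group G] [TopologicalSpace G] [IsTopologicalGroup G]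
    [CompactSpace G] (M : Type) [AddCommGroup M] [DistribMulAction G M] [Finite M],
    IsDisc G M → Pro2 G → Odd (Nat.card M) → ∀ n : ℕ, 1 ≤ n → HVanish G M n

/-- Equivariant lifting of cochains through a surjection of discrete `G`-sets. -/
def TaskLift : Prop :=
  ∀ (G : Type) [Group G] [TopologicalSpace G] [IsTopologicalGroup G]
    (A B : Type) [MulAction G A] [MulAction G B],
    (∀ x : A, IsOpen (MulAction.stabilizer G x : Set G)) →
    (∀ x : B, IsOpen (MulAction.stabilizer G x : Set G)) →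
    ∀ π : A → B, Function.Surjective π → (∀ (g : G) (x : A), π (g • x) = g • π x) →
    ∀ (n : ℕ) (h : (Fin (n + 1) → G) → B), IsLocallyConstant h →
      (∀ (g : G) (v : Fin (n + 1) → G), h (fun i => g * v i) = g • h v) →
      ∃ h' : (Fin (n + 1) → G) → A, IsLocallyConstant h' ∧
        (∀ (g : G) (v : Fin (n + 1) → G), h' (fun i => g * v i) = g • h' v) ∧
        ∀ v, π (h' v) = h v

/-- Artin-Schreier: `H^n(G_k, F_2) = 0` for `n ≥ 2` in characteristic two. -/
def TaskF2 : Prop :=
  TaskDD → TaskLift →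
    (∀ (k : Type) [Field k] (n : ℕ), 1 ≤ n → HVanish (GG k) (SeparableClosure k) n) →
    ∀ (k : Type) [Field k] [CharP k 2] (n : ℕ), 2 ≤ n → F2V (GG k) n

/-- One step of devissage. -/
def TaskStep : Prop :=
  TaskDD → TaskLift → ∀ (G : Type) [Group G] [TopologicalSpace G] [IsTopologicalGroup G]
    (M M' : Type) [AddCommGroup M] [AddCommGroup M'] [DistribMulAction G M]
    [DistribMulAction G M'], IsDisc G M → IsDisc G M' →
    ∀ π : M →+ M', Function.Surjective π → (∀ (g : G) (x : M), π (g • x) = g • π x) →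
    ∀ x : M, x ≠ 0 → 2 • x = 0 → (∀ g : G, g • x = x) → (∀ m, π m = 0 ↔ m = 0 ∨ m = x) →
    ∀ n : ℕ, 1 ≤ n → F2V G n → HVanish G M' n → HVanish G M n

/-- Fixed element of order two. -/
def TaskFix : Prop :=
  ∀ (G : Type) [Group G] [TopologicalSpace G] [IsTopologicalGroup G] [CompactSpace G]
    (M : Type) [AddCommGroup M] [DistribMulAction G M] [Finite M],
    IsDisc G M → Pro2 G → Even (Nat.card M) →
    ∃ x : M, x ≠ 0 ∧ 2 • x = 0 ∧ ∀ g : G, g • x = x

/-- Devissage for finite modules, by induction on the order. -/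
def TaskFin : Prop :=
  (∀ (G : Type) [Group G] [TopologicalSpace G] [IsTopologicalGroup G]
    (M M' : Type) [AddCommGroup M] [AddCommGroup M'] [DistribMulAction G M]
    [DistribMulAction G M'], IsDisc G M → IsDisc G M' →
    ∀ π : M →+ M', Function.Surjective π → (∀ (g : G) (x : M), π (g • x) = g • π x) →
    ∀ x : M, x ≠ 0 → 2 • x = 0 → (∀ g : G, g • x = x) → (∀ m, π m = 0 ↔ m = 0 ∨ m = x) →
    ∀ n : ℕ, 1 ≤ n → F2V G n → HVanish G M' n → HVanish G M n) →
  TaskFix →
  (∀ (G : Type) [Group G] [TopologicalSpace G] [IsTopologicalGroup G]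
    [CompactSpace G] (M : Type) [AddCommGroup M] [DistribMulAction G M] [Finite M],
    IsDisc G M → Pro2 G → Odd (Nat.card M) → ∀ n : ℕ, 1 ≤ n → HVanish G M n) →
  ∀ (G : Type) [Group G] [TopologicalSpace G] [IsTopologicalGroup G] [CompactSpace G]
    (M : Type) [AddCommGroup M] [DistribMulAction G M] [Finite M],
    IsDisc G M → Pro2 G → ∀ n : ℕ, 1 ≤ n → F2V G n → HVanish G M n

/-- From finite modules to torsion modules. -/
def TaskTors : Prop :=
  ∀ (G : Type) [Group G] [TopologicalSpace G] [IsTopologicalGroup G] [CompactSpace G] (n : ℕ),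
    (∀ (M : Type) [AddCommGroup M] [DistribMulAction G M] [Finite M], IsDisc G M →
      HVanish G M n) →
    ∀ (M : Type) [AddCommGroup M] [DistribMulAction G M], IsDisc G M →
      (∀ x : M, ∃ k : ℕ, 0 < k ∧ k • x = 0) → HVanish G M n

/-- Nonvanishing of `H^1`. -/
def TaskH1 : Prop :=
  ∀ (k : Type) [Field k] [CharP k 2] (d : k), (∀ x : k, x ^ 2 + x ≠ d) → ¬ CdLE (GG k) 0

/-- Springer's theorem. -/
def TaskSpr : Prop :=
  ∀ (K : Type) [Field K] (a b : K), Anis K a b →
    ∀ (L : Type) [Field L] [Algebra K L] [FiniteDimensional K L] [Algebra.IsSeparable K L],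
      Odd (Module.finrank K L) → Anis L (algebraMap K L a) (algebraMap K L b)

/-- Existence of a maximal field. -/
def TaskMax : Prop :=
  TaskSpr → ∀ (K : Type) [Field K] [CharP K 2] (a b : K), Anis K a b →
    ∃ (k : Type) (_ : Field k) (_ : CharP k 2) (a' b' : k), Anis k a' b' ∧ OddClosed k

/-- An anisotropic form. -/
def TaskAn : Prop :=
  ∃ (K : Type) (_ : Field K) (_ : CharP K 2) (a b : K), Anis K a b

/-- Indices of open subgroups. -/
def TaskIdx : Prop :=
  ∀ (k : Type) [Field k], OddClosed k → Pro2 (GG k)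

/-- Smoothness. -/
def TaskSm : Prop :=
  ∀ (k : Type) [Field k] [CharP k 2] (a b : k), a ≠ 0 → b ≠ 0 → a ≠ 1 → b ≠ 1 → a ≠ b →
    SmoothCI k (FP a b) (GP k)

end Pool.Agent.H379R3.CDQ
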