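import Mathlib
import Pool.Agent.H379R3.CDQ.Stmts

set_option autoImplicit false

/-! ## H379R3/CDQ/DD -/
section
namespace Pool.Agent.H379R3.CDQ

/-- d d = 0. -/
theorem taskDD : TaskDD := by
  intro G M _ n h v
  have key : ∀ (i : Fin (n + 1 + 1)),
      (-1 : ℤ) ^ (i : ℕ) • dd h (fun j => v (i.succAbove j)) =
        ∑ j : Fin (n + 1), (-1 : ℤ) ^ ((i : ℕ) + (j : ℕ)) •
          h (fun l => v (i.succAbove (j.succAbove l))) := by
    intro i
    unfold dd
    rw [Finset.smul_sum]
    refine Finset.sum_congr rfl fun j _ => ?_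
    rw [smul_smul, pow_add]
  have h1 : dd (dd h) v = ∑ i : Fin (n + 1 + 1), ∑ j : Fin (n + 1),
      (-1 : ℤ) ^ ((i : ℕ) + (j : ℕ)) • h (fun l => v (i.succAbove (j.succAbove l))) := by
    show (∑ i : Fin (n + 1 + 1), (-1 : ℤ) ^ (i : ℕ) • dd h (fun j => v (i.succAbove j))) = _
    exact Finset.sum_congr rfl fun i _ => key i
  rw [h1, ← Fintype.sum_prod_type' (f := fun (i : Fin (n + 1 + 1)) (j : Fin (n + 1)) =>
      (-1 : ℤ) ^ ((i : ℕ) + (j : ℕ)) • h (fun l => v (i.succAbove (j.succAbove l))))]
  refine Finset.sum_involution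
    (fun (p : Fin (n + 1 + 1) × Fin (n + 1)) _ => (p.1.succAbove p.2, p.2.predAbove p.1))
    ?_ ?_ ?_ ?_
  · rintro ⟨i, j⟩ _
    simp only [Fin.succAbove_succAbove_succAbove_predAbove,
      Fin.neg_one_pow_succAbove_add_predAbove, neg_smul, add_neg_cancel]
  · rintro ⟨i, j⟩ _ _ heq
    exact Fin.succAbove_ne i j (congrArg Prod.fst heq)
  · intro _ _
    exact Finset.mem_univ _
  · rintro ⟨i, j⟩ _
    simp only [Fin.succAbove_succAbove_predAbove, Fin.predAbove_predAbove_succAbove]

end Pool.Agent.H379R3.CDQ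
end

/-! ## H99R3/CDQ/Per -/
section
/-!
# Task Per of the project H379-CDQ
-/


open Set Topology

namespace Pool.Agent.H99R3.CDQ

open Pool.Agent.H379R3.CDQ

theorem taskPer : TaskPer := by
  intro G _ _ _ _ M n f hf
  let U : Subgroup G :=
    { carrier := {u | ∀ (g : G) (v : Fin n → G),
        f (Fin.cons (g * u) v : Fin (n + 1) → G) = f (Fin.cons g v : Fin (n + 1) → G)}
      mul_mem' := by
        intro a b ha hb g v
        rw [← mul_assoc, hb, ha]
      one_mem' := by
        intro g v
        rw [mul_one]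
      inv_mem' := by
        intro a ha g v
        have := ha (g * a⁻¹) v
        rw [inv_mul_cancel_right] at this
        exact this.symm }
  refine ⟨U, ?_, fun u hu => hu⟩
  have c1 : Continuous (fun p : G × (G × (Fin n → G)) =>
      (Fin.cons (p.2.1 * p.1) p.2.2 : Fin (n + 1) → G)) := by
    refine continuous_pi (fun i => ?_)
    refine Fin.cases ?_ (fun j => ?_) i
    · simp only [Fin.cons_zero]
      fun_prop
    · simp only [Fin.cons_succ]
      fun_prop
  have c2 : Continuous (fun p : G × (G × (Fin n → G)) =>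
      (Fin.cons p.2.1 p.2.2 : Fin (n + 1) → G)) := by
    refine continuous_pi (fun i => ?_)
    refine Fin.cases ?_ (fun j => ?_) i
    · simp only [Fin.cons_zero]
      fun_prop
    · simp only [Fin.cons_succ]
      fun_prop
  have l1 := hf.comp_continuous c1
  have l2 := hf.comp_continuous c2
  have hW : IsOpen {p : G × (G × (Fin n → G)) |
      f (Fin.cons (p.2.1 * p.1) p.2.2 : Fin (n + 1) → G) =
        f (Fin.cons p.2.1 p.2.2 : Fin (n + 1) → G)} := by
    rw [isOpen_iff_mem_nhds]
    intro p hp
    filter_upwards [l1.eventually_eq p, l2.eventually_eq p] with q hq1 hq2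
    have hp' : f (Fin.cons (p.2.1 * p.1) p.2.2 : Fin (n + 1) → G) =
        f (Fin.cons p.2.1 p.2.2 : Fin (n + 1) → G) := hp
    have hq1' : f (Fin.cons (q.2.1 * q.1) q.2.2 : Fin (n + 1) → G) =
        f (Fin.cons (p.2.1 * p.1) p.2.2 : Fin (n + 1) → G) := hq1
    have hq2' : f (Fin.cons q.2.1 q.2.2 : Fin (n + 1) → G) =
        f (Fin.cons p.2.1 p.2.2 : Fin (n + 1) → G) := hq2
    show f (Fin.cons (q.2.1 * q.1) q.2.2 : Fin (n + 1) → G) =
      f (Fin.cons q.2.1 q.2.2 : Fin (n + 1) → G)
    rw [hq1', hq2', hp']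
  obtain ⟨s, t, hs, -, h1, ht, hst⟩ := generalized_tube_lemma (isCompact_singleton (x := (1 : G)))
    (isCompact_univ (X := G × (Fin n → G))) hW (by
      rintro ⟨u, g, v⟩ ⟨hu, -⟩
      have hu' : u = 1 := hu
      subst hu'
      show f (Fin.cons (g * 1) v : Fin (n + 1) → G) = f (Fin.cons g v : Fin (n + 1) → G)
      rw [mul_one])
  refine Subgroup.isOpen_of_mem_nhds U (g := 1) ?_
  refine Filter.mem_of_superset (hs.mem_nhds (h1 rfl)) ?_
  intro u hu g v
  exact hst (show (u, (g, v)) ∈ s ×ˢ t from ⟨hu, ht (mem_univ _)⟩)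

end Pool.Agent.H99R3.CDQ
end

/-! ## H322R3/CDQ/Avg -/
section
/-! Averaging (task Avg of the project CDQ of helper379). -/


namespace Pool.Agent.H322R3.CDQ

open Pool.Agent.H379R3.CDQ

lemma lc_sum {X M ι : Type} [TopologicalSpace X] [AddCommGroup M] (s : Finset ι)
    (F : ι → X → M) (h : ∀ i, IsLocallyConstant (F i)) :
    IsLocallyConstant (fun x => ∑ i ∈ s, F i x) := by
  classical
  induction s using Finset.induction_on with
  | empty =>
    simp only [Finset.sum_empty]
    exact IsLocallyConstant.const (0 : M)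
  | insert a s ha ih =>
    have : (fun x => ∑ i ∈ insert a s, F i x) = fun x => F a x + ∑ i ∈ s, F i x := by
      funext x
      rw [Finset.sum_insert ha]
    rw [this]
    exact (h a).comp₂ ih (· + ·)

lemma cocycle_cons {G M : Type} [AddCommGroup M] {n : ℕ} (f : (Fin (n + 1) → G) → M)
    (hf : ∀ v, dd f v = 0) (s : G) (w : Fin (n + 1) → G) :
    f w = ∑ i : Fin (n + 1), (-1 : ℤ) ^ (i : ℕ) •
      f (Fin.cons s (fun j => w (i.succAbove j)) : Fin (n + 1) → G) := by
  have h := hf (Fin.cons s w : Fin (n + 1 + 1) → G)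
  unfold dd at h
  rw [Fin.sum_univ_succ] at h
  have h0 : (fun j : Fin (n + 1) => (Fin.cons s w : Fin (n + 1 + 1) → G) ((0 : Fin (n + 2)).succAbove j))
      = w := by
    funext j
    simp
  have h1 : ∀ i : Fin (n + 1), (fun j : Fin (n + 1) =>
      (Fin.cons s w : Fin (n + 1 + 1) → G) (i.succ.succAbove j)) =
      (Fin.cons s (fun j => w (i.succAbove j)) : Fin (n + 1) → G) := by
    intro i
    funext j
    refine Fin.cases ?_ (fun j => ?_) j
    · simp
    · simp
  rw [h0] at h
  simp only [h1] at h
  simp only [Fin.val_zero, pow_zero, one_smul, Fin.val_succ, pow_succ, mul_neg, mul_one, neg_smul,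
    Finset.sum_neg_distrib] at h
  rw [← sub_eq_add_neg, sub_eq_zero] at h
  exact h

theorem taskAvg : TaskAvg := by
  intro hPer G _ _ _ _ M _ _ _hM hE n hn f hflc hfe hfc
  obtain ⟨n, rfl⟩ : ∃ m, n = m + 1 := ⟨n - 1, by omega⟩
  obtain ⟨U, hU, hUf⟩ := hPer G M (n + 1) f hflc
  obtain ⟨e, he1, he2, he3⟩ := hE U hU
  haveI : Finite (G ⧸ U) := Subgroup.quotient_finite_of_isOpen U hU
  haveI : Fintype (G ⧸ U) := Fintype.ofFinite _
  have he3' : ∀ m, ∑ s : G ⧸ U, e s.out m = m := by
    intro m
    rw [← finsum_eq_sum_of_fintype]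
    exact he3 m
  refine ⟨fun v => ∑ s : G ⧸ U, e s.out (f (Fin.cons s.out v : Fin (n + 1 + 1) → G)), ?_, ?_, ?_⟩
  · refine lc_sum Finset.univ (fun (s : G ⧸ U) (v : Fin (n + 1) → G) =>
      e s.out (f (Fin.cons s.out v : Fin (n + 1 + 1) → G))) ?_
    intro s
    have hc : Continuous (fun v : Fin (n + 1) → G => (Fin.cons s.out v : Fin (n + 1 + 1) → G)) := by
      refine continuous_pi fun j => ?_
      refine Fin.cases ?_ (fun j => ?_) j
      · simpa using continuous_const
      · simpa using continuous_apply j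
    exact (hflc.comp_continuous hc).comp (fun m => e s.out m)
  · intro g v
    set F : G → M := fun t => e t (f (Fin.cons t v : Fin (n + 1 + 1) → G)) with hF
    have hFU : ∀ t, ∀ u ∈ U, F (t * u) = F t := by
      intro t u hu
      simp only [hF]
      rw [he1 t u hu, hUf u hu t v]
    have hFout : ∀ t : G, F ((QuotientGroup.mk t : G ⧸ U).out) = F t := by
      intro t
      obtain ⟨u, hu⟩ := QuotientGroup.mk_out_eq_mul U t
      rw [hu]
      exact hFU t u u.2
    have h1 : ∀ s : G ⧸ U, e s.out (f (Fin.cons s.out (fun i => g * v i) : Fin (n + 1 + 1) → G)) =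
        g • F (g⁻¹ * s.out) := by
      intro s
      have h2 : (Fin.cons s.out (fun i => g * v i) : Fin (n + 1 + 1) → G) =
          fun i => g * (Fin.cons (g⁻¹ * s.out) v : Fin (n + 1 + 1) → G) i := by
        funext i
        refine Fin.cases ?_ (fun i => ?_) i
        · simp
        · simp
      rw [h2, hfe]
      simp only [hF]
      rw [← he2 g (g⁻¹ * s.out), mul_inv_cancel_left]
    have h3 : ∀ s : G ⧸ U, F (g⁻¹ * s.out) = F ((g⁻¹ • s).out) := by
      intro s
      rw [← hFout (g⁻¹ * s.out)]
      congr 2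
      conv_rhs => rw [← QuotientGroup.out_eq' s]
      rfl
    change ∑ s : G ⧸ U, e s.out (f (Fin.cons s.out (fun i => g * v i) : Fin (n + 1 + 1) → G)) =
      g • ∑ s : G ⧸ U, e s.out (f (Fin.cons s.out v : Fin (n + 1 + 1) → G))
    rw [Finset.smul_sum]
    simp only [h1]
    calc ∑ s : G ⧸ U, g • F (g⁻¹ * s.out) = ∑ s : G ⧸ U, g • F ((g⁻¹ • s).out) := by
          refine Finset.sum_congr rfl fun s _ => ?_
          rw [h3]
      _ = ∑ s : G ⧸ U, g • F (s.out) :=
          Equiv.sum_comp (MulAction.toPerm g⁻¹ : Equiv.Perm (G ⧸ U)) (fun s => g • F (s.out))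
      _ = _ := rfl
  · intro w
    unfold dd
    calc f w = ∑ s : G ⧸ U, e s.out (f w) := (he3' _).symm
      _ = ∑ s : G ⧸ U, ∑ i : Fin (n + 1 + 1), (-1 : ℤ) ^ (i : ℕ) •
            e s.out (f (Fin.cons s.out (fun j => w (i.succAbove j)) : Fin (n + 1 + 1) → G)) := by
          refine Finset.sum_congr rfl fun s _ => ?_
          conv_lhs => rw [cocycle_cons f hfc s.out w]
          rw [map_sum]
          refine Finset.sum_congr rfl fun i _ => ?_
          rw [map_zsmul]
      _ = _ := by
          rw [Finset.sum_comm]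
          refine Finset.sum_congr rfl fun i _ => ?_
          rw [Finset.smul_sum]

end Pool.Agent.H322R3.CDQ
end

/-! ## H192R3/CDQ/Tr -/
section
/-! # TaskTr (helper192) -/


namespace Pool.Agent.H379R3.CDQ

namespace TrTask

theorem out_mul {k : Type} [Field k] (U : Subgroup (GG k)) (c : SeparableClosure k)
    (hc : ∀ u ∈ U, u c = c) (g g' : GG k) (h : (QuotientGroup.mk g : GG k ⧸ U) = QuotientGroup.mk g') :
    g c = g' c := by
  rw [QuotientGroup.eq] at h
  have h1 := hc _ h
  have h2 : g ((g⁻¹ * g') c) = g c := by rw [h1]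
  rw [← h2]
  simp [AlgEquiv.mul_apply]

theorem main : TaskTr := by
  intro k _ U hU
  have hfin : Finite (GG k ⧸ U) := Subgroup.quotient_finite_of_isOpen U hU
  have : Fintype (GG k ⧸ U) := Fintype.ofFinite _
  -- the fixed field
  let HU : ClosedSubgroup (GG k) := ⟨U, U.isClosed_of_isOpen hU⟩
  have hfix : (IntermediateField.fixedField U).fixingSubgroup = U :=
    InfiniteGalois.fixingSubgroup_fixedField HU
  set E := IntermediateField.fixedField U with hE
  have hEmem : ∀ c : SeparableClosure k, c ∈ E ↔ ∀ u ∈ U, u c = c := by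
    intro c
    rw [hE, IntermediateField.mem_fixedField_iff]
  -- the characters
  let φ : (GG k ⧸ U) → (E →* SeparableClosure k) := fun s =>
    ((s.out : SeparableClosure k ≃ₐ[k] SeparableClosure k).toRingEquiv.toMonoidHom).comp
      (E.val : E →+* SeparableClosure k).toMonoidHom
  have hφ : ∀ s (x : E), φ s x = s.out (x : SeparableClosure k) := fun s x => rfl
  have hinj : Function.Injective φ := by
    intro s s' h
    have h1 : (s.out : GG k)⁻¹ * s'.out ∈ E.fixingSubgroup := by
      rw [IntermediateField.mem_fixingSubgroup_iff]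
      intro x hx
      have h2 := congrArg (fun f : E →* SeparableClosure k => f ⟨x, hx⟩) h
      simp only [hφ] at h2
      rw [AlgEquiv.mul_apply, ← h2, ← AlgEquiv.mul_apply]
      simp
    rw [hfix] at h1
    have h3 : (QuotientGroup.mk s.out : GG k ⧸ U) = QuotientGroup.mk s'.out :=
      QuotientGroup.eq.mpr h1
    simpa using h3
  have hli : LinearIndependent (SeparableClosure k)
      (fun s : GG k ⧸ U => (φ s : E → SeparableClosure k)) :=
    (linearIndependent_monoidHom E (SeparableClosure k)).comp φ hinj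
  have hne : ∃ x : E, ∑ s : GG k ⧸ U, s.out (x : SeparableClosure k) ≠ 0 := by
    by_contra hcon
    push Not at hcon
    have h1 : ∑ s : GG k ⧸ U, (1 : SeparableClosure k) • (φ s : E → SeparableClosure k) = 0 := by
      funext x
      rw [Finset.sum_apply]
      simp only [Pi.smul_apply, one_smul, Pi.zero_apply]
      exact hcon x
    have h2 := Fintype.linearIndependent_iff.mp hli (fun _ => 1) h1
      (QuotientGroup.mk (1 : GG k))
    exact one_ne_zero h2
  obtain ⟨x, hx⟩ := hne
  set t : SeparableClosure k := ∑ s : GG k ⧸ U, s.out (x : SeparableClosure k) with ht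
  have hxU : ∀ u ∈ U, u (x : SeparableClosure k) = x := (hEmem _).mp x.2
  have htinv : ∀ g : GG k, g t = t := by
    intro g
    rw [ht, map_sum]
    have h1 : ∀ s : GG k ⧸ U, g (s.out (x : SeparableClosure k))
        = (g • s).out (x : SeparableClosure k) := by
      intro s
      rw [← AlgEquiv.mul_apply]
      refine out_mul U _ hxU _ _ ?_
      rw [QuotientGroup.out_eq']
      conv_rhs => rw [← QuotientGroup.out_eq' s]
      rfl
    rw [Finset.sum_congr rfl (fun s _ => h1 s)]
    exact Equiv.sum_comp (MulAction.toPerm g) (fun s : GG k ⧸ U => s.out (x : SeparableClosure k))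
  refine ⟨(x : SeparableClosure k) * t⁻¹, ?_, ?_⟩
  · intro u hu
    rw [map_mul, map_inv₀, htinv u, hxU u hu]
  · rw [finsum_eq_sum_of_fintype]
    have h1 : ∀ s : GG k ⧸ U, s.out ((x : SeparableClosure k) * t⁻¹)
        = s.out (x : SeparableClosure k) * t⁻¹ := by
      intro s
      rw [map_mul, map_inv₀, htinv]
    rw [Finset.sum_congr rfl (fun s _ => h1 s), ← Finset.sum_mul, ← ht]
    exact mul_inv_cancel₀ hx

end TrTask

theorem taskTr : TaskTr := TrTask.main

end Pool.Agent.H379R3.CDQ
end

/-! ## H379R3/CDQ/Ks -/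
section
namespace Pool.Agent.H379R3.CDQ

theorem isDisc_sepClosure (k : Type) [Field k] : IsDisc (GG k) (SeparableClosure k) := by
  intro x
  have hi : IsIntegral k x := (Algebra.IsAlgebraic.isAlgebraic (R := k) x).isIntegral
  haveI : FiniteDimensional k (IntermediateField.adjoin k {x}) :=
    IntermediateField.adjoin.finiteDimensional hi
  have h1 := IntermediateField.fixingSubgroup_isOpen (IntermediateField.adjoin k {x})
  have h2 : (IntermediateField.adjoin k {x}).fixingSubgroup ≤
      MulAction.stabilizer (GG k) x := by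
    intro g hg
    rw [MulAction.mem_stabilizer_iff]
    exact hg ⟨x, IntermediateField.mem_adjoin_simple_self k x⟩
  exact Subgroup.isOpen_mono h2 h1

theorem taskKs : TaskKs := by
  intro tPer tAvg tTr k _ n hn
  refine tAvg tPer (GG k) (SeparableClosure k) (isDisc_sepClosure k) ?_ n hn
  intro U hU
  obtain ⟨c, hc, hsum⟩ := tTr k U hU
  haveI : Finite (GG k ⧸ U) := Subgroup.quotient_finite_of_isOpen U hU
  haveI := Fintype.ofFinite (GG k ⧸ U)
  refine ⟨fun g => AddMonoidHom.mulLeft (g c), ?_, ?_, ?_⟩
  · intro g u hu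
    simp only [AlgEquiv.mul_apply, hc u hu]
  · intro g s m
    simp [AlgEquiv.mul_apply, AlgEquiv.smul_def]
  · intro m
    rw [finsum_eq_sum_of_fintype] at hsum ⊢
    simp only [AddMonoidHom.coe_mulLeft]
    rw [← Finset.sum_mul, hsum, one_mul]

end Pool.Agent.H379R3.CDQ
end

/-! ## H123R3/CDQ/Odd -/
section
namespace Pool.Agent.H123R3.CDQ

open Pool.Agent.H379R3.CDQ

/-- Odd modules over pro-2 groups are acyclic. -/
theorem taskOdd : TaskOdd := by
  intro hPer hAvg G _ _ _ _ M _ _ _ hdisc hpro hodd n hn
  refine hAvg hPer G M hdisc ?_ n hn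
  intro U hU
  obtain ⟨m, hm⟩ := hpro U hU
  have hcop : Nat.Coprime (Nat.card M) U.index := by
    rw [hm]
    exact Nat.Coprime.pow_right m (Nat.coprime_two_right.mpr hodd)
  have hne : U.index ≠ 0 := by rw [hm]; positivity
  let φ : M ≃+ M :=
    AddEquiv.ofBijective (nsmulAddMonoidHom U.index : M →+ M) (nsmulCoprime hcop).bijective
  have hφ : ∀ x : M, φ x = U.index • x := fun x => rfl
  refine ⟨fun _ => φ.symm.toAddMonoidHom, fun _ _ _ => rfl, fun g s x => ?_, fun x => ?_⟩
  · show φ.symm (g • x) = g • φ.symm x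
    apply φ.injective
    rw [φ.apply_symm_apply, hφ, smul_comm, ← hφ, φ.apply_symm_apply]
  · show ∑ᶠ s : G ⧸ U, φ.symm x = x
    have : Finite (G ⧸ U) := Nat.finite_of_card_ne_zero hne
    have : Fintype (G ⧸ U) := Fintype.ofFinite _
    rw [finsum_eq_sum_of_fintype, Finset.sum_const, Finset.card_univ, ← Nat.card_eq_fintype_card]
    have h := φ.apply_symm_apply x
    rw [hφ] at h
    exact h

end Pool.Agent.H123R3.CDQ
end

/-! ## H379R3/CDQ/LiftOwn -/
section
namespace Pool.Agent.H379R3.CDQ

/-- `x ↦ g x • y x` is locally constant if `g` is continuous, `y` is locally constant and the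
stabilisers are open. -/
theorem smul_loc {X G A : Type} [TopologicalSpace X] [Group G] [TopologicalSpace G]
    [IsTopologicalGroup G] [MulAction G A]
    (hA : ∀ x : A, IsOpen (MulAction.stabilizer G x : Set G)) (g : X → G) (hg : Continuous g)
    (y : X → A) (hy : IsLocallyConstant y) : IsLocallyConstant (fun x => g x • y x) := by
  rw [IsLocallyConstant.iff_exists_open]
  intro x
  obtain ⟨U, hU, hxU, hyU⟩ := (IsLocallyConstant.iff_exists_open y).1 hy x
  refine ⟨U ∩ (fun z => (g x)⁻¹ * g z) ⁻¹' (MulAction.stabilizer G (y x) : Set G),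
    hU.inter ((hA (y x)).preimage (continuous_const.mul hg)), ⟨hxU, ?_⟩, ?_⟩
  · simp
  · rintro z ⟨hzU, hz⟩
    have hz' : ((g x)⁻¹ * g z) • y x = y x := hz
    rw [mul_smul] at hz'
    show g z • y z = g x • y x
    rw [hyU z hzU]
    have := congrArg (fun w => g x • w) hz'
    simpa using this

theorem taskLift_own : TaskLift := by
  intro G _ _ _ A B _ _ hA hB π hπ hπg n h hh heq
  classical
  choose s hs using hπ
  have c0 : Continuous (fun v : Fin (n + 1) → G => v 0) := continuous_apply 0
  refine ⟨fun v => v 0 • s ((v 0)⁻¹ • h v), ?_, ?_, ?_⟩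
  · refine smul_loc hA _ c0 _ ?_
    have h1 : IsLocallyConstant (fun v : Fin (n + 1) → G => (v 0)⁻¹ • h v) :=
      smul_loc hB _ c0.inv _ hh
    exact h1.comp s
  · intro g v
    simp only [heq, mul_inv_rev, mul_smul, inv_smul_smul]
  · intro v
    simp only [hπg, hs, smul_inv_smul]

end Pool.Agent.H379R3.CDQ
end

/-! ## H335R3/CDQ/F2 -/
section
/-! Project CDQ, task F2: Artin-Schreier theory. -/

namespace Pool.Agent.H335R3.CDQ

open Pool.Agent.H379R3.CDQ

theorem dd_map {G M M' : Type} [AddCommGroup M] [AddCommGroup M'] (φ : M →+ M') {n : ℕ}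
    (h : (Fin n → G) → M) (v : Fin (n + 1) → G) : dd (fun u => φ (h u)) v = φ (dd h v) := by
  unfold dd
  rw [map_sum]
  apply Finset.sum_congr rfl
  intro i _
  rw [map_zsmul]

theorem dd_sub {G M : Type} [AddCommGroup M] {n : ℕ}
    (h h' : (Fin n → G) → M) (v : Fin (n + 1) → G) :
    dd (fun u => h u - h' u) v = dd h v - dd h' v := by
  unfold dd
  rw [← Finset.sum_sub_distrib]
  apply Finset.sum_congr rfl
  intro i _
  rw [zsmul_sub]

theorem lc_sum {X M ι : Type} [TopologicalSpace X] [AddCommGroup M] (s : Finset ι)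
    (F : ι → X → M) (hF : ∀ i, IsLocallyConstant (F i)) :
    IsLocallyConstant (fun x => ∑ i ∈ s, F i x) := by
  classical
  induction s using Finset.induction_on with
  | empty =>
    simp only [Finset.sum_empty]
    exact IsLocallyConstant.const 0
  | insert a s ha ih =>
    simp only [Finset.sum_insert ha]
    exact (hF a).add ih

theorem lc_dd {G M : Type} [TopologicalSpace G] [AddCommGroup M] {n : ℕ}
    (h : (Fin n → G) → M) (hh : IsLocallyConstant h) :
    IsLocallyConstant (dd h : (Fin (n + 1) → G) → M) := by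
  unfold dd
  apply lc_sum
  intro i
  have h1 : Continuous (fun v : Fin (n + 1) → G => fun j => v (i.succAbove j)) := by fun_prop
  exact (hh.comp_continuous h1).comp (fun m => (-1 : ℤ) ^ (i : ℕ) • m)

theorem eqv_dd {G M : Type} [Group G] [AddCommGroup M] [DistribMulAction G M] {n : ℕ}
    (h : (Fin n → G) → M) (hh : Eqv h) : Eqv (dd h : (Fin (n + 1) → G) → M) := by
  intro g v
  unfold dd
  rw [Finset.smul_sum]
  apply Finset.sum_congr rfl
  intro i _
  rw [hh g (fun j => v (i.succAbove j)), smul_comm]

theorem taskF2 : TaskF2 := by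
  intro hDD hLift hV k _ _ n hn f hf hinv hcoc
  classical
  have hchar : CharP (SeparableClosure k) 2 :=
    charP_of_injective_algebraMap (algebraMap k (SeparableClosure k)).injective 2
  -- the inclusion of `F_2`
  let ι : ZMod 2 →+* SeparableClosure k := ZMod.castHom (dvd_refl 2) (SeparableClosure k)
  have hιinj : Function.Injective ι := ι.injective
  have hιg : ∀ (g : GG k) (c : ZMod 2), g (ι c) = ι c := by
    intro g c
    have h1 : (g : SeparableClosure k →+* SeparableClosure k).comp ι = ι := Subsingleton.elim _ _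
    exact DFunLike.congr_fun h1 c
  have h01 : ∀ c : ZMod 2, c ^ 2 + c = 0 := by decide
  have htwo : (2 : SeparableClosure k) = 0 := by
    have := CharP.cast_eq_zero (SeparableClosure k) 2
    exact_mod_cast this
  -- the additive map `x -> x ^ 2 + x`
  let π : SeparableClosure k →+ SeparableClosure k :=
    { toFun := fun x => x ^ 2 + x
      map_zero' := by ring
      map_add' := fun x y => by linear_combination (x * y) * htwo }
  have hπ : ∀ x, π x = x ^ 2 + x := fun x => rfl
  have hπs : Function.Surjective π := by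
    intro y
    have hdeg : (Polynomial.X ^ 2 + Polynomial.X - Polynomial.C y :
        Polynomial (SeparableClosure k)).degree = 2 := by
      compute_degree!
    have hsep : (Polynomial.X ^ 2 + Polynomial.X - Polynomial.C y :
        Polynomial (SeparableClosure k)).Separable := by
      rw [Polynomial.separable_def]
      have hder : Polynomial.derivative (Polynomial.X ^ 2 + Polynomial.X - Polynomial.C y :
          Polynomial (SeparableClosure k)) = 1 := by
        simp only [Polynomial.derivative_sub, Polynomial.derivative_add,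
          Polynomial.derivative_X_pow, Polynomial.derivative_X, Polynomial.derivative_C]
        have h2 : ((2 : ℕ) : SeparableClosure k) = 0 := by exact_mod_cast htwo
        rw [h2, Polynomial.C_0]
        ring
      rw [hder]
      exact isCoprime_one_right
    obtain ⟨x, hx⟩ := IsSepClosed.exists_root _ (by rw [hdeg]; norm_num) hsep
    refine ⟨x, ?_⟩
    rw [Polynomial.IsRoot.def] at hx
    simp only [Polynomial.eval_sub, Polynomial.eval_add, Polynomial.eval_pow, Polynomial.eval_X,
      Polynomial.eval_C] at hx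
    rw [hπ]
    exact sub_eq_zero.mp hx
  have hπg : ∀ (g : GG k) (x : SeparableClosure k), π (g • x) = g • π x := by
    intro g x
    rw [hπ, hπ, smul_add, smul_pow']
  have hdisc : ∀ x : SeparableClosure k,
      IsOpen (MulAction.stabilizer (GG k) x : Set (GG k)) := fun x =>
    stabilizer_isOpen_of_isIntegral (K := k) (L := SeparableClosure k) x
  obtain ⟨m, rfl⟩ : ∃ m, n = m + 1 := ⟨n - 1, by omega⟩
  obtain ⟨l, rfl⟩ : ∃ l, m = l + 1 := ⟨m - 1, by omega⟩
  -- first step
  obtain ⟨h, hlc, heq, hdd⟩ := hV k (l + 1 + 1) (by omega) (fun v => ι (f v)) (hf.comp ι)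
    (by
      intro g v
      change ι (f fun i => g * v i) = g (ι (f v))
      rw [hinv, hιg])
    (by
      intro v
      have e1 := dd_map ι.toAddMonoidHom f v
      rw [hcoc v, map_zero] at e1
      exact e1)
  -- second step
  obtain ⟨w, wlc, weq, wdd⟩ := hV k (l + 1) (by omega) (fun v => π (h v)) (hlc.comp π)
    (by
      intro g v
      beta_reduce
      rw [heq g v, hπg])
    (by
      intro v
      rw [dd_map π h v, ← hdd v, hπ, ← map_pow, ← map_add, h01, map_zero])
  -- lifting
  obtain ⟨w', w'lc, w'eq, w'π⟩ := hLift (GG k) (SeparableClosure k) (SeparableClosure k) hdisc hdisc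
    π hπs hπg l w wlc weq
  obtain ⟨h1, hh1⟩ : ∃ h1 : (Fin (l + 1 + 1) → GG k) → SeparableClosure k,
      h1 = fun v => h v - dd w' v := ⟨_, rfl⟩
  have h1lc : IsLocallyConstant h1 := by
    rw [hh1]
    exact hlc.sub (lc_dd w' w'lc)
  have h1eq : Eqv h1 := by
    intro g v
    rw [hh1]
    simp only
    rw [heq g v, eqv_dd w' w'eq g v, smul_sub]
  have h1π : ∀ v, π (h1 v) = 0 := by
    intro v
    rw [hh1]
    simp only
    rw [map_sub, wdd v, ← dd_map π w' v, sub_eq_zero]
    congr 1
    funext u
    exact (w'π u).symm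
  have h1dd : ∀ v, dd h1 v = ι (f v) := by
    intro v
    rw [hh1, dd_sub h (dd w') v, hDD (GG k) (SeparableClosure k) (l + 1) w' v, sub_zero]
    exact (hdd v).symm
  have h1v : ∀ v, h1 v = 0 ∨ h1 v = 1 := by
    intro v
    have h2 := h1π v
    rw [hπ] at h2
    have h3 : h1 v * (h1 v - 1) = 0 := by linear_combination h2 - (h1 v) * htwo
    rcases mul_eq_zero.mp h3 with h4 | h4
    · exact Or.inl h4
    · exact Or.inr (sub_eq_zero.mp h4)
  -- the cochain with values in `F_2`
  let q : SeparableClosure k → ZMod 2 := fun x => if x = 0 then 0 else 1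
  have hq : ∀ v, ι (q (h1 v)) = h1 v := by
    intro v
    rcases h1v v with h2 | h2
    · rw [h2]
      simp [q]
    · rw [h2]
      simp [q]
  refine ⟨fun v => q (h1 v), h1lc.comp q, ?_, ?_⟩
  · intro g v
    apply hιinj
    simp only
    rw [hq, hq, h1eq g v]
    change g (h1 v) = h1 v
    rw [← hq v]
    exact hιg g _
  · intro v
    apply hιinj
    have h2 := dd_map ι.toAddMonoidHom (fun v => q (h1 v)) v
    have h3 : (fun u => ι.toAddMonoidHom (q (h1 u))) = h1 := by
      funext u
      exact hq u
    rw [h3] at h2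
    rw [← h1dd v, h2]
    rfl

end Pool.Agent.H335R3.CDQ
end

/-! ## H551R3/CDQ/Step -/
section
namespace Pool.Agent.H551R3.CDQ

open Pool.Agent.H379R3.CDQ

theorem dd_map {G M M' : Type} [AddCommGroup M] [AddCommGroup M'] {n : ℕ} (π : M →+ M')
    (h : (Fin n → G) → M) (v : Fin (n + 1) → G) :
    π (dd h v) = dd (fun w => π (h w)) v := by
  simp only [dd, map_sum, map_zsmul]

theorem dd_add {G M : Type} [AddCommGroup M] {n : ℕ} (h h' : (Fin n → G) → M)
    (v : Fin (n + 1) → G) :
    dd (fun w => h w + h' w) v = dd h v + dd h' v := by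
  simp only [dd, smul_add, Finset.sum_add_distrib]

theorem dd_sub {G M : Type} [AddCommGroup M] {n : ℕ} (h h' : (Fin n → G) → M)
    (v : Fin (n + 1) → G) :
    dd (fun w => h w - h' w) v = dd h v - dd h' v := by
  simp only [dd, smul_sub, Finset.sum_sub_distrib]

theorem lc_sum {X M ι : Type} [TopologicalSpace X] [AddCommGroup M] (s : Finset ι)
    (F : ι → X → M) (hF : ∀ i, IsLocallyConstant (F i)) :
    IsLocallyConstant (fun x => ∑ i ∈ s, F i x) := by
  classical
  induction s using Finset.induction_on with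
  | empty =>
    simp only [Finset.sum_empty]
    exact IsLocallyConstant.const (0 : M)
  | insert a s ha ih =>
    simp only [Finset.sum_insert ha]
    exact (hF a).add ih

theorem dd_lc {G M : Type} [TopologicalSpace G] [AddCommGroup M] {n : ℕ}
    (h : (Fin n → G) → M) (hh : IsLocallyConstant h) : IsLocallyConstant (dd h) := by
  have : dd h = fun v => ∑ i : Fin (n + 1), (fun (i : Fin (n + 1)) (v : Fin (n + 1) → G) =>
      (-1 : ℤ) ^ (i : ℕ) • h (fun j => v (i.succAbove j))) i v := rfl
  rw [this]
  refine lc_sum _ _ fun i => ?_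
  have hc : Continuous (fun (v : Fin (n + 1) → G) (j : Fin n) => v (i.succAbove j)) := by
    fun_prop
  exact (hh.comp_continuous hc).comp (fun m => (-1 : ℤ) ^ (i : ℕ) • m)

theorem dd_eqv {G M : Type} [Group G] [AddCommGroup M] [DistribMulAction G M] {n : ℕ}
    (h : (Fin n → G) → M) (hh : Eqv h) : Eqv (dd h) := by
  intro g v
  simp only [dd, Finset.smul_sum]
  refine Finset.sum_congr rfl fun i _ => ?_
  rw [hh g (fun j => v (i.succAbove j))]
  exact ((DistribSMul.toAddMonoidHom M g).map_zsmul _ _).symm

theorem zx {M : Type} [AddCommGroup M] (x : M) (hx : 2 • x = 0) :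
    zmultiplesHom M x ((2 : ℕ) : ℤ) = 0 := by
  rw [zmultiplesHom_apply, natCast_zsmul]
  exact hx

/-- The map from `ZMod 2` given by an element killed by two. -/
noncomputable def io {M : Type} [AddCommGroup M] (x : M) (hx : 2 • x = 0) : ZMod 2 →+ M :=
  ZMod.lift 2 ⟨zmultiplesHom M x, zx x hx⟩

theorem io_one {M : Type} [AddCommGroup M] (x : M) (hx : 2 • x = 0) : io x hx 1 = x := by
  have := ZMod.lift_coe 2 (⟨zmultiplesHom M x, zx x hx⟩ : {f : ℤ →+ M // f (2 : ℕ) = 0}) 1
  simpa [io] using this

theorem taskStep : TaskStep := by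
  intro hDD hLift G _ _ _ M M' _ _ _ _ hM hM' π hπ heq x hx hx2 hfix hker n hn hF hV f hf hfe hfc
  classical
  obtain ⟨m, rfl⟩ : ∃ m, n = m + 1 := ⟨n - 1, by omega⟩
  obtain ⟨hb, hb1, hb2, hb3⟩ := hV (fun v => π (f v)) (hf.comp π)
    (fun g v => by
      show π (f _) = g • π (f v)
      rw [hfe g v, heq])
    (fun v => by rw [← dd_map, hfc v, map_zero])
  obtain ⟨h, h1, h2, h3⟩ := hLift G M M' hM hM' π hπ heq m hb hb1 hb2
  -- the difference
  set r : (Fin (m + 1 + 1) → G) → M := fun v => f v - dd h v with hr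
  have r1 : IsLocallyConstant r := hf.sub (dd_lc h h1)
  have r2 : Eqv r := fun g v => by
    show f _ - dd h _ = g • (f v - dd h v)
    rw [hfe g v, dd_eqv h h2 g v, smul_sub]
  have r3 : ∀ v, dd r v = 0 := fun v => by
    rw [hr, dd_sub, hfc v]
    have := hDD G M (m + 1) h v
    rw [this, sub_zero]
  have r4 : ∀ v, π (r v) = 0 := fun v => by
    show π (f v - dd h v) = 0
    rw [map_sub, dd_map]
    have e : (fun w => π (h w)) = hb := funext h3
    rw [e, hb3 v, sub_self]
  have r5 : ∀ v, r v = 0 ∨ r v = x := fun v => (hker _).1 (r4 v)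
  set ι := io x hx2 with hι
  have ι1 : ι 1 = x := io_one x hx2
  set c : (Fin (m + 1 + 1) → G) → ZMod 2 := fun v => if r v = 0 then 0 else 1 with hc
  have c0 : ∀ v, ι (c v) = r v := fun v => by
    rcases r5 v with h | h
    · simp [hc, h]
    · have : r v ≠ 0 := by rw [h]; exact hx
      simp only [hc, if_neg this]
      rw [ι1, h]
  have ιinj : ∀ a : ZMod 2, ι a = 0 → a = 0 := by
    intro a ha
    fin_cases a
    · rfl
    · exfalso
      apply hx
      rw [← ι1]
      exact ha
  have c1 : IsLocallyConstant c := r1.comp (fun m => if m = 0 then (0 : ZMod 2) else 1)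
  have c2 : ∀ (g : G) (v : Fin (m + 1 + 1) → G), c (fun i => g * v i) = c v := fun g v => by
    simp only [hc, r2 g v, smul_eq_zero_iff_eq]
  have c3 : ∀ v, dd c v = 0 := fun v => by
    apply ιinj
    rw [dd_map]
    have e : (fun w => ι (c w)) = r := funext c0
    rw [e, r3 v]
  obtain ⟨b, b1, b2, b3⟩ := hF c c1 c2 c3
  refine ⟨fun v => h v + ι (b v), h1.add (b1.comp ι), ?_, ?_⟩
  · intro g v
    show h _ + ι (b _) = g • (h v + ι (b v))
    rw [h2 g v, b2 g v, smul_add]
    congr 1
    have : ∀ a : ZMod 2, g • ι a = ι a := by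
      intro a
      fin_cases a
      · show g • ι 0 = ι 0
        rw [map_zero, smul_zero]
      · show g • ι 1 = ι 1
        rw [ι1, hfix]
    rw [this]
  · intro v
    rw [dd_add, ← dd_map, ← b3 v, c0 v]
    simp [hr]

end Pool.Agent.H551R3.CDQ
end

/-! ## H633R3/CDQ/Fix -/
section
namespace Pool.Agent.H379R3.CDQ

theorem taskFix : TaskFix := by
  classical
  intro G _ _ _ _ M _ _ _ hdisc hpro heven
  have : Fact (Nat.Prime 2) := ⟨Nat.prime_two⟩
  let X : AddSubgroup M := (nsmulAddMonoidHom (α := M) 2).ker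
  have hX : ∀ x : M, x ∈ X ↔ 2 • x = 0 := by
    intro x
    simp only [X, AddMonoidHom.mem_ker, nsmulAddMonoidHom_apply]
  have hsm : ∀ (g : G) (x : M), x ∈ X → g • x ∈ X := by
    intro g x hx
    rw [hX] at hx ⊢
    rw [two_nsmul] at hx ⊢
    rw [← smul_add, hx, smul_zero]
  let act : MulAction G X :=
    { smul := fun g x => ⟨g • (x : M), hsm g x x.2⟩
      one_smul := fun x => Subtype.ext (one_smul G (x : M))
      mul_smul := fun g h x => Subtype.ext (mul_smul g h (x : M)) }
  have hact : ∀ (g : G) (x : X), ((g • x : X) : M) = g • (x : M) := fun g x => rfl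
  let φ : G →* Equiv.Perm X := MulAction.toPermHom G X
  have hker : IsOpen (φ.ker : Set G) := by
    have h1 : (φ.ker : Set G) = ⋂ x : X, (MulAction.stabilizer G (x : M) : Set G) := by
      ext g
      simp only [SetLike.mem_coe, MonoidHom.mem_ker, Set.mem_iInter, MulAction.mem_stabilizer_iff]
      constructor
      · intro h x
        have := congrArg (fun e : Equiv.Perm X => ((e x : X) : M)) h
        exact this
      · intro h
        ext x
        exact h x
    rw [h1]
    exact isOpen_iInter_of_finite (fun x => hdisc (x : M))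
  obtain ⟨m, hm⟩ := hpro φ.ker hker
  have hP : IsPGroup 2 φ.range := by
    rw [IsPGroup.iff_card]
    exact ⟨m, by rw [← Subgroup.index_ker, hm]⟩
  have hdvd : 2 ∣ Nat.card X := by
    obtain ⟨x, hx⟩ := exists_prime_addOrderOf_dvd_card' (G := M) 2 heven.two_dvd
    have hxX : x ∈ X := by
      rw [hX, ← hx]
      exact addOrderOf_nsmul_eq_zero x
    have h2 : addOrderOf (⟨x, hxX⟩ : X) = 2 := by
      rw [AddSubgroup.addOrderOf_mk, hx]
    rw [← h2]
    exact addOrderOf_dvd_natCard _
  have h0 : (0 : X) ∈ MulAction.fixedPoints φ.range X := by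
    rintro ⟨_, g, rfl⟩
    apply Subtype.ext
    exact smul_zero g
  obtain ⟨b, hb, hb0⟩ := hP.exists_fixed_point_of_prime_dvd_card_of_fixed_point X hdvd h0
  refine ⟨(b : M), ?_, (hX _).mp b.2, ?_⟩
  · intro h
    exact hb0 (Subtype.ext h.symm)
  · intro g
    have := hb ⟨φ g, g, rfl⟩
    exact congrArg (fun y : X => (y : M)) this

end Pool.Agent.H379R3.CDQ
end

/-! ## H584R3/CDQ/Fin -/
section
namespace Pool.Agent.H584R3.CDQ

open Pool.Agent.H379R3.CDQ

theorem taskFin : TaskFin := by
  intro hstep hfix hodd G _ _ _ _ M _ _ _ hD hP n hn hF2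
  suffices H : ∀ (c : ℕ) (M : Type) [AddCommGroup M] [DistribMulAction G M] [Finite M],
      Nat.card M = c → IsDisc G M → HVanish G M n from H _ M rfl hD
  intro c
  induction c using Nat.strong_induction_on with
  | _ c ih =>
    intro M _ _ _ hc hD
    rcases Nat.even_or_odd (Nat.card M) with he | ho
    · obtain ⟨x, hx0, hx2, hxf⟩ := hfix G M hD hP he
      have hxx : x + x = 0 := by rw [← two_nsmul]; exact hx2
      have hneg : -x = x := by rw [neg_eq_iff_add_eq_zero]; exact hxx
      let N : AddSubgroup M :=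
        { carrier := {m | m = 0 ∨ m = x}
          zero_mem' := Or.inl rfl
          add_mem' := by
            rintro a b (rfl | rfl) (rfl | rfl)
            · left; simp
            · right; simp
            · right; simp
            · left; exact hxx
          neg_mem' := by
            rintro a (rfl | rfl)
            · left; simp
            · right; exact hneg }
      have hN : ∀ m, m ∈ N ↔ m = 0 ∨ m = x := fun m => Iff.rfl
      have hmap : ∀ g : G, N ≤ N.comap (DistribSMul.toAddMonoidHom M g) := by
        intro g m hm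
        rw [AddSubgroup.mem_comap, hN]
        rcases (hN m).1 hm with rfl | rfl
        · left; simp
        · right; exact hxf g
      let act : DistribMulAction G (M ⧸ N) :=
        { smul := fun g q => QuotientAddGroup.map N N (DistribSMul.toAddMonoidHom M g) (hmap g) q
          one_smul := by
            intro q
            induction q using QuotientAddGroup.induction_on with
            | H m =>
              change QuotientAddGroup.map N N (DistribSMul.toAddMonoidHom M (1 : G)) (hmap 1)
                (m : M ⧸ N) = _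
              rw [QuotientAddGroup.map_mk]
              simp
          mul_smul := by
            intro g h q
            induction q using QuotientAddGroup.induction_on with
            | H m =>
              change QuotientAddGroup.map N N (DistribSMul.toAddMonoidHom M (g * h)) (hmap _)
                (m : M ⧸ N) = QuotientAddGroup.map N N (DistribSMul.toAddMonoidHom M g) (hmap g)
                  (QuotientAddGroup.map N N (DistribSMul.toAddMonoidHom M h) (hmap h)
                    (m : M ⧸ N))
              rw [QuotientAddGroup.map_mk, QuotientAddGroup.map_mk, QuotientAddGroup.map_mk]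
              simp [mul_smul]
          smul_zero := fun g => map_zero _
          smul_add := fun g a b => map_add _ a b }
      have hact : ∀ (g : G) (m : M), (QuotientAddGroup.mk' N) (g • m) =
          g • (QuotientAddGroup.mk' N) m := by
        intro g m
        rfl
      have hD' : IsDisc G (M ⧸ N) := by
        intro q
        obtain ⟨m, rfl⟩ := QuotientAddGroup.mk'_surjective N q
        have h1 : MulAction.stabilizer G m ≤ MulAction.stabilizer G (QuotientAddGroup.mk' N m) := by
          intro g hg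
          rw [MulAction.mem_stabilizer_iff] at hg ⊢
          rw [← hact, hg]
        exact Subgroup.isOpen_mono h1 (hD m)
      have hker : ∀ m, QuotientAddGroup.mk' N m = 0 ↔ m = 0 ∨ m = x := by
        intro m
        rw [QuotientAddGroup.mk'_apply, QuotientAddGroup.eq_zero_iff, hN]
      have hcard : Nat.card (M ⧸ N) < Nat.card M := by
        by_contra hcon
        have hbij := Function.Surjective.bijective_of_nat_card_le
          (QuotientAddGroup.mk'_surjective N) (not_lt.1 hcon)
        apply hx0
        apply hbij.1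
        rw [map_zero, hker]
        right; rfl
      refine hstep G M (M ⧸ N) hD hD' (QuotientAddGroup.mk' N)
        (QuotientAddGroup.mk'_surjective N) hact x hx0 hx2 hxf hker n hn hF2 ?_
      exact ih (Nat.card (M ⧸ N)) (hc ▸ hcard) (M ⧸ N) rfl hD'
    · exact hodd G M hD hP ho n hn

end Pool.Agent.H584R3.CDQ
end

/-! ## H940R3/CDQ/Tors -/
section
namespace Pool.Agent.H940R3.CDQ

open Pool.Agent.H379R3.CDQ

lemma dd_coe {G M : Type} [AddCommGroup M] (A : AddSubgroup M) {n : ℕ} (h : (Fin n → G) → A)
    (v : Fin (n + 1) → G) : ((dd h v : A) : M) = dd (fun w => ((h w : A) : M)) v := by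
  unfold dd
  rw [AddSubgroup.val_finsetSum]
  exact Finset.sum_congr rfl fun i _ => by simp

/-- The action on a stable subgroup. -/
@[reducible] def act {G M : Type} [Group G] [AddCommGroup M] [DistribMulAction G M]
    (A : AddSubgroup M) (hA : ∀ (g : G), ∀ x ∈ A, g • x ∈ A) : DistribMulAction G A where
  smul g x := ⟨g • (x : M), hA g x x.2⟩
  one_smul x := Subtype.ext (one_smul G (x : M))
  mul_smul g h x := Subtype.ext (mul_smul g h (x : M))
  smul_zero g := Subtype.ext (smul_zero g)
  smul_add g x y := Subtype.ext (smul_add g (x : M) (y : M))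

theorem taskTors : TaskTors := by
  intro G _ _ _ _ n hfin M _ _ hdisc htors f hlc heqv hcoc
  have hrange : (Set.range f).Finite := hlc.range_finite
  set A : AddSubgroup M := AddSubgroup.closure (Set.range f) with hAdef
  have hA : ∀ (g : G), ∀ x ∈ A, g • x ∈ A := by
    intro g x hx
    induction hx using AddSubgroup.closure_induction with
    | mem y hy =>
      obtain ⟨v, rfl⟩ := hy
      rw [← heqv g v]
      exact AddSubgroup.subset_closure ⟨_, rfl⟩
    | zero => rw [smul_zero]; exact A.zero_mem
    | add y z _ _ hy hz => rw [smul_add]; exact A.add_mem hy hz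
    | neg y _ hy => rw [smul_neg]; exact A.neg_mem hy
  letI : DistribMulAction G A := act A hA
  haveI : Finite (Set.range f) := hrange
  haveI hfg : AddGroup.FG A := by
    rw [AddGroup.fg_iff_addSubgroup_fg]
    exact ⟨hrange.toFinset, by simp [hAdef]⟩
  haveI : Finite A := by
    apply AddCommGroup.finite_of_fg_torsion
    intro x
    obtain ⟨k, hk, hkx⟩ := htors (x : M)
    rw [isOfFinAddOrder_iff_nsmul_eq_zero]
    exact ⟨k, hk, Subtype.ext (by simpa using hkx)⟩
  have hdA : IsDisc G A := by
    intro x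
    have h1 : (MulAction.stabilizer G x : Set G) = MulAction.stabilizer G (x : M) := by
      ext g
      simp only [SetLike.mem_coe, MulAction.mem_stabilizer_iff]
      constructor
      · intro h
        exact congrArg Subtype.val h
      · intro h
        exact Subtype.ext h
    rw [h1]
    exact hdisc x
  obtain ⟨h, hh1, hh2, hh3⟩ := hfin A hdA
    (fun v => ⟨f v, AddSubgroup.subset_closure ⟨v, rfl⟩⟩)
    (IsLocallyConstant.desc _ (Subtype.val : A → M) hlc Subtype.val_injective)
    (fun g v => Subtype.ext (heqv g v))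
    (fun v => Subtype.ext (by rw [dd_coe]; exact hcoc v))
  refine ⟨fun w => ((h w : A) : M), hh1.comp _, ?_, ?_⟩
  · intro g v
    exact congrArg Subtype.val (hh2 g v)
  · intro v
    have := congrArg Subtype.val (hh3 v)
    rw [dd_coe] at this
    exact this

end Pool.Agent.H940R3.CDQ
end

/-! ## H195R3/CDQ/H1 -/
section
/-! Project H379-CDQ, task H1 (helper195). -/

namespace Pool.Agent.H195R3.CDQH1

open Pool.Agent.H379R3.CDQ

/-- the trivial action -/
@[reducible] def triv (G : Type) [Group G] : DistribMulAction G (ZMod 2) where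
  smul := fun _ x => x
  one_smul := fun _ => rfl
  mul_smul := fun _ _ _ => rfl
  smul_zero := fun _ => rfl
  smul_add := fun _ _ _ => rfl

theorem _root_.Pool.Agent.H379R3.CDQ.taskH1 : TaskH1 := by
  classical
  intro k _ _ d hd hcd
  have h2 : (2 : SeparableClosure k) = 0 := by
    have : (2 : k) = 0 := by exact_mod_cast CharP.cast_eq_zero k 2
    have h3 := congrArg (algebraMap k (SeparableClosure k)) this
    rwa [map_ofNat, map_zero] at h3
  obtain ⟨α, hα⟩ := IsSepClosed.exists_root_C_mul_X_pow_add_C_mul_X_add_C (k := SeparableClosure k)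
    (n := 2) 1 1 (-algebraMap k (SeparableClosure k) d) (by simpa using h2) le_rfl one_ne_zero
  have hα' : α ^ 2 + α = algebraMap k (SeparableClosure k) d := by linear_combination hα
  -- the two conjugates
  have hconj : ∀ σ : GG k, σ α = α ∨ σ α = α + 1 := by
    intro σ
    have h3 : (σ α) ^ 2 + σ α = algebraMap k (SeparableClosure k) d := by
      have := congrArg σ hα'
      rwa [map_add, map_pow, AlgEquiv.commutes] at this
    have h4 : (σ α - α) * (σ α - (α + 1)) = 0 := by
      linear_combination h3 - hα' + (α ^ 2 - σ α * α + α - σ α) * h2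
    rcases mul_eq_zero.1 h4 with h | h
    · left; exact sub_eq_zero.1 h
    · right; exact sub_eq_zero.1 h
  obtain ⟨χ, hχ0, hχ1⟩ : ∃ χ : GG k → ZMod 2, (∀ σ : GG k, σ α = α → χ σ = 0) ∧
      (∀ σ : GG k, σ α ≠ α → χ σ = 1) :=
    ⟨fun σ => if σ α = α then 0 else 1, fun σ h => if_pos h, fun σ h => if_neg h⟩
  have h01 : (1 : ZMod 2) ≠ 0 := by decide
  have hne : α + 1 ≠ α := by
    intro h
    have : (1 : SeparableClosure k) = 0 := by linear_combination h
    exact one_ne_zero this
  have hmul : ∀ σ τ : GG k, χ (σ * τ) = χ σ + χ τ := by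
    intro σ τ
    have e : (σ * τ) α = σ (τ α) := rfl
    rcases hconj τ with ht | ht <;> rcases hconj σ with hs | hs
    · have e1 : (σ * τ) α = α := by rw [e, ht, hs]
      rw [hχ0 _ e1, hχ0 _ hs, hχ0 _ ht, add_zero]
    · have e1 : (σ * τ) α = α + 1 := by rw [e, ht, hs]
      rw [hχ1 _ (e1 ▸ hne), hχ1 _ (hs ▸ hne), hχ0 _ ht, add_zero]
    · have e1 : (σ * τ) α = α + 1 := by rw [e, ht, map_add, map_one, hs]
      rw [hχ1 _ (e1 ▸ hne), hχ0 _ hs, hχ1 _ (ht ▸ hne), zero_add]
    · have e1 : (σ * τ) α = α := by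
        rw [e, ht, map_add, map_one, hs]
        linear_combination h2
      rw [hχ0 _ e1, hχ1 _ (hs ▸ hne), hχ1 _ (ht ▸ hne)]
      decide
  let act : DistribMulAction (GG k) (ZMod 2) := triv (GG k)
  have hsm : ∀ (g : GG k) (x : ZMod 2), g • x = x := fun _ _ => rfl
  have hdisc : IsDisc (GG k) (ZMod 2) := by
    intro x
    have : (MulAction.stabilizer (GG k) x : Set (GG k)) = Set.univ := by
      ext g
      simp [MulAction.mem_stabilizer_iff, hsm]
    rw [this]
    exact isOpen_univ
  have htors : ∀ x : ZMod 2, ∃ m : ℕ, 0 < m ∧ m • x = 0 := by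
    intro x
    refine ⟨2, by norm_num, ?_⟩
    revert x
    decide
  have hv := hcd (ZMod 2) hdisc htors 1 Nat.zero_lt_one
  let f : (Fin 2 → GG k) → ZMod 2 := fun v => χ ((v 0)⁻¹ * v 1)
  have hstab : IsOpen (MulAction.stabilizer (GG k) α : Set (GG k)) :=
    stabilizer_isOpen_of_isIntegral α
  have hχlc : IsLocallyConstant χ := by
    rw [IsLocallyConstant.iff_isOpen_fiber]
    intro y
    have hcl : IsClosed (MulAction.stabilizer (GG k) α : Set (GG k)) :=
      Subgroup.isClosed_of_isOpen _ hstab
    have hmem : ∀ σ : GG k, σ ∈ (MulAction.stabilizer (GG k) α : Set (GG k)) ↔ σ α = α :=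
      fun σ => Iff.rfl
    by_cases hy0 : y = 0
    · have : χ ⁻¹' {y} = (MulAction.stabilizer (GG k) α : Set (GG k)) := by
        ext σ
        rw [hmem, Set.mem_preimage, Set.mem_singleton_iff, hy0]
        by_cases h : σ α = α
        · exact ⟨fun _ => h, fun _ => hχ0 _ h⟩
        · rw [hχ1 _ h]
          exact ⟨fun h' => absurd h' h01, fun h' => absurd h' h⟩
      rw [this]; exact hstab
    · by_cases hy1 : y = 1
      · have : χ ⁻¹' {y} = (MulAction.stabilizer (GG k) α : Set (GG k))ᶜ := by
          ext σ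
          rw [Set.mem_compl_iff, hmem, Set.mem_preimage, Set.mem_singleton_iff, hy1]
          by_cases h : σ α = α
          · rw [hχ0 _ h]
            exact ⟨fun h' => absurd h'.symm h01, fun h' => absurd h h'⟩
          · exact ⟨fun _ => h, fun _ => hχ1 _ h⟩
        rw [this]; exact hcl.isOpen_compl
      · exfalso
        revert y
        decide
  have hf1 : IsLocallyConstant f := by
    refine hχlc.comp_continuous (f := fun v : Fin 2 → GG k => (v 0)⁻¹ * v 1) ?_
    exact (continuous_apply 0).inv.mul (continuous_apply 1)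
  have hf2 : Eqv f := by
    intro g v
    rw [hsm]
    simp only [f]
    congr 1
    group
  have hf3 : ∀ v : Fin 3 → GG k, dd f v = 0 := by
    intro v
    have e1 : dd f v = f (fun j => v (Fin.succAbove 0 j)) - f (fun j => v (Fin.succAbove 1 j)) +
        f (fun j => v (Fin.succAbove 2 j)) := by
      unfold dd
      rw [Fin.sum_univ_three, show ((0 : Fin 3) : ℕ) = 0 from rfl,
        show ((1 : Fin 3) : ℕ) = 1 from rfl, show ((2 : Fin 3) : ℕ) = 2 from rfl, pow_zero, pow_one,
        one_smul, neg_smul, one_smul, neg_one_sq, one_smul, sub_eq_add_neg]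
    rw [e1]
    have s1 : f (fun j => v (Fin.succAbove 0 j)) = χ ((v 1)⁻¹ * v 2) := rfl
    have s2 : f (fun j => v (Fin.succAbove 1 j)) = χ ((v 0)⁻¹ * v 2) := rfl
    have s3 : f (fun j => v (Fin.succAbove 2 j)) = χ ((v 0)⁻¹ * v 1) := rfl
    rw [s1, s2, s3]
    have e2 : χ ((v 0)⁻¹ * v 2) = χ ((v 0)⁻¹ * v 1) + χ ((v 1)⁻¹ * v 2) := by
      rw [← hmul]
      congr 1
      group
    rw [e2]
    ring
  obtain ⟨h, -, hh2, hh3⟩ := hv f hf1 hf2 hf3
  have hconst : ∀ v : Fin 1 → GG k, h v = h (fun _ => 1) := by
    intro v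
    have h6 := hh2 (v 0) (fun _ => 1)
    rw [hsm] at h6
    rw [← h6]
    congr 1
    funext i
    rw [Subsingleton.elim i 0]
    simp
  have hzero : ∀ σ : GG k, χ σ = 0 := by
    intro σ
    have h7 := hh3 ![1, σ]
    have h8 : f ![1, σ] = χ σ := by simp [f]
    rw [← h8, h7]
    simp only [dd, hconst]
    simp
    left
    rfl
  have hfix : ∀ σ : GG k, σ α = α := by
    intro σ
    by_contra hcon
    exact h01 ((hχ1 _ hcon).symm.trans (hzero σ))
  obtain ⟨x, hx⟩ := (InfiniteGalois.mem_range_algebraMap_iff_fixed (k := k) α).2 hfix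
  apply hd x
  apply (algebraMap k (SeparableClosure k)).injective
  rw [map_add, map_pow, hx, hα']

end Pool.Agent.H195R3.CDQH1
end

/-! ## H271R3/CDQ/Spr -/
section
/-!
# Project CDQ, task Spr: Springer's theorem for the explicit form in six variables
-/


namespace Pool.Agent.H271CDQ

open Pool.Agent.H379R3.CDQ Polynomial

variable {K : Type} [Field K]

theorem odd_factor : ∀ (n : ℕ) (h : K[X]), h.natDegree = n → Odd n →
    ∃ g : K[X], Irreducible g ∧ Odd g.natDegree ∧ g ∣ h := by
  intro n
  induction n using Nat.strong_induction_on with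
  | _ n ih =>
    intro h hn hodd
    have hpos : 0 < n := hodd.pos
    have h0 : h ≠ 0 := by
      rintro rfl
      simp at hn
      omega
    have hnu : ¬ IsUnit h := by
      intro hu
      have := natDegree_eq_zero_of_isUnit hu
      omega
    obtain ⟨g, hg, k, hk⟩ := WfDvdMonoid.exists_irreducible_factor hnu h0
    have hk0 : k ≠ 0 := by
      rintro rfl
      exact h0 (by rw [hk, mul_zero])
    have hdeg : n = g.natDegree + k.natDegree := by
      rw [← hn, hk, natDegree_mul hg.ne_zero hk0]
    by_cases hgo : Odd g.natDegree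
    · exact ⟨g, hg, hgo, k, hk⟩
    · have hgpos : 0 < g.natDegree := hg.natDegree_pos
      have hko : Odd k.natDegree := by
        rw [hdeg, Nat.odd_add] at hodd
        by_contra hc
        rw [Nat.not_odd_iff_even] at hc
        exact hgo (hodd.mpr hc)
      obtain ⟨g', h1, h2, h3⟩ := ih k.natDegree (by omega) k rfl hko
      exact ⟨g', h1, h2, h3.trans ⟨g, by rw [hk, mul_comm]⟩⟩

theorem coeff_qf (a b : K) (s : Fin 6 → K[X]) (m : ℕ) (hs : ∀ i, (s i).natDegree ≤ m) :
    (qf (C a) (C b) s).coeff (m + m) = qf a b (fun i => (s i).coeff m) := by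
  unfold qf
  simp only [coeff_add, pow_two, coeff_C_mul]
  rw [coeff_mul_add_eq_of_natDegree_le (hs 0) (hs 0), coeff_mul_add_eq_of_natDegree_le (hs 0) (hs 1),
    coeff_mul_add_eq_of_natDegree_le (hs 1) (hs 1), coeff_mul_add_eq_of_natDegree_le (hs 2) (hs 2),
    coeff_mul_add_eq_of_natDegree_le (hs 2) (hs 3), coeff_mul_add_eq_of_natDegree_le (hs 3) (hs 3),
    coeff_mul_add_eq_of_natDegree_le (hs 4) (hs 4), coeff_mul_add_eq_of_natDegree_le (hs 4) (hs 5),
    coeff_mul_add_eq_of_natDegree_le (hs 5) (hs 5)]

theorem natDegree_qf (a b : K) (s : Fin 6 → K[X]) (m : ℕ) (hs : ∀ i, (s i).natDegree ≤ m) :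
    (qf (C a) (C b) s).natDegree ≤ m + m := by
  have hm : ∀ i j, (s i * s j).natDegree ≤ m + m := fun i j =>
    natDegree_mul_le_of_le (hs i) (hs j)
  have hc : ∀ (c : K) (f : K[X]), f.natDegree ≤ m + m → (C c * f).natDegree ≤ m + m :=
    fun c f hf => (natDegree_C_mul_le c f).trans hf
  unfold qf
  simp only [pow_two]
  refine natDegree_add_le_of_degree_le (natDegree_add_le_of_degree_le
    (natDegree_add_le_of_degree_le (natDegree_add_le_of_degree_le (hm 0 0) (hm 0 1)) (hm 1 1))
    (hc _ _ (natDegree_add_le_of_degree_le (natDegree_add_le_of_degree_le (hm 2 2) (hm 2 3))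
      (hm 3 3))))
    (hc _ _ (natDegree_add_le_of_degree_le (natDegree_add_le_of_degree_le (hm 4 4) (hm 4 5))
      (hm 5 5)))

theorem qf_mul {R : Type} [CommRing R] (a b c : R) (t : Fin 6 → R) :
    qf a b (fun i => c * t i) = c ^ 2 * qf a b t := by
  unfold qf
  ring

theorem main {a b : K} (hA : Anis K a b) : ∀ (n : ℕ) (p : K[X]), Irreducible p →
    p.natDegree = n → Odd n → ∀ u : Fin 6 → K[X], p ∣ qf (C a) (C b) u → ∀ i, p ∣ u i := by
  intro n
  induction n using Nat.strong_induction_on with
  | _ n ih =>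
    intro p hp hpn hodd u hu
    have hnpos : 0 < n := hodd.pos
    have inner : ∀ (m : ℕ) (s : Fin 6 → K[X]), (∀ i, (s i).natDegree ≤ m) → m < n →
        p ∣ qf (C a) (C b) s → s = 0 := by
      intro m
      induction m using Nat.strong_induction_on with
      | _ m ihm =>
        intro s hs hmn hps
        by_cases hc : (fun i => (s i).coeff m) = 0
        · rcases Nat.eq_zero_or_pos m with hm0 | hm0
          · subst hm0
            funext i
            have h1 := congrFun hc i
            simp only [Pi.zero_apply] at h1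
            have h2 := eq_C_of_natDegree_le_zero (hs i)
            rw [h2, h1, C_0]
            rfl
          · refine ihm (m - 1) (by omega) s (fun i => ?_) (by omega) hps
            have h1 := congrFun hc i
            simp only [Pi.zero_apply] at h1
            have h3 := hs i
            by_contra h2
            have h4 : (s i).natDegree = m := by omega
            have h5 : (s i).leadingCoeff = 0 := by
              rw [leadingCoeff, h4]
              exact h1
            rw [leadingCoeff_eq_zero] at h5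
            rw [h5, natDegree_zero] at h4
            omega
        · exfalso
          have hne : qf a b (fun i => (s i).coeff m) ≠ 0 := fun h => hc (hA _ h)
          rw [← coeff_qf a b s m hs] at hne
          have hdeg : (qf (C a) (C b) s).natDegree = m + m :=
            natDegree_eq_of_le_of_coeff_ne_zero (natDegree_qf a b s m hs) hne
          have hq0 : qf (C a) (C b) s ≠ 0 := by
            intro h
            rw [h] at hne
            simp at hne
          obtain ⟨h, hh⟩ := hps
          have hh0 : h ≠ 0 := by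
            rintro rfl
            exact hq0 (by rw [hh, mul_zero])
          have hd2 : m + m = n + h.natDegree := by
            rw [← hdeg, hh, natDegree_mul hp.ne_zero hh0, hpn]
          have hho : Odd h.natDegree := by
            have he : Even (n + h.natDegree) := ⟨m, hd2.symm⟩
            rw [Nat.even_add'] at he
            exact he.mp hodd
          obtain ⟨g, hg, hgo, hgh⟩ := odd_factor _ h rfl hho
          have hgle : g.natDegree ≤ h.natDegree := natDegree_le_of_dvd hgh hh0
          have hgs : ∀ i, g ∣ s i := by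
            refine ih g.natDegree (by omega) g hg rfl hgo s ?_
            rw [hh]
            exact hgh.mul_left p
          choose t ht using hgs
          have hst : s = fun i => g * t i := funext ht
          have hpt : p ∣ qf (C a) (C b) t := by
            have h1 : p ∣ g ^ 2 * qf (C a) (C b) t := by
              rw [← qf_mul, ← hst, hh]
              exact dvd_mul_right _ _
            rcases hp.prime.dvd_or_dvd h1 with h2 | h2
            · exfalso
              have h3 := hp.prime.dvd_of_dvd_pow h2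
              have h4 := natDegree_le_of_dvd h3 hg.ne_zero
              omega
            · exact h2
          have hgpos : 0 < g.natDegree := hg.natDegree_pos
          have hm1 : 1 ≤ m := by omega
          have ht0 : t = 0 := by
            refine ihm (m - 1) (by omega) t (fun i => ?_) (by omega) hpt
            by_cases hti : t i = 0
            · rw [hti, natDegree_zero]
              exact Nat.zero_le _
            · have h1 := hs i
              rw [ht i, natDegree_mul hg.ne_zero hti] at h1
              omega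
          apply hc
          funext i
          rw [ht i, ht0]
          simp
    -- reduce modulo `p`
    have hr : p ∣ qf (C a) (C b) (fun i => u i % p) := by
      have h1 : ∀ i, u i % p = u i - p * (u i / p) := by
        intro i
        rw [eq_sub_iff_add_eq]
        exact EuclideanDomain.mod_add_div (u i) p
      have h2 : p ∣ qf (C a) (C b) u - qf (C a) (C b) (fun i => u i % p) := by
        simp only [h1]
        unfold qf
        refine ⟨(2 * u 0 * (u 0 / p) - p * (u 0 / p) ^ 2
          + (u 0 * (u 1 / p) + u 1 * (u 0 / p) - p * (u 0 / p) * (u 1 / p))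
          + (2 * u 1 * (u 1 / p) - p * (u 1 / p) ^ 2))
          + C a * (2 * u 2 * (u 2 / p) - p * (u 2 / p) ^ 2
          + (u 2 * (u 3 / p) + u 3 * (u 2 / p) - p * (u 2 / p) * (u 3 / p))
          + (2 * u 3 * (u 3 / p) - p * (u 3 / p) ^ 2))
          + C b * (2 * u 4 * (u 4 / p) - p * (u 4 / p) ^ 2
          + (u 4 * (u 5 / p) + u 5 * (u 4 / p) - p * (u 4 / p) * (u 5 / p))
          + (2 * u 5 * (u 5 / p) - p * (u 5 / p) ^ 2)), ?_⟩
        ring
      exact (dvd_sub_right hu).mp h2
    have hz := inner (n - 1) (fun i => u i % p) (fun i => by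
      have := natDegree_mod_lt (u i) (q := p) (by omega)
      omega) (by omega) hr
    intro i
    have h1 := congrFun hz i
    simp only [Pi.zero_apply] at h1
    exact (EuclideanDomain.mod_eq_zero).mp h1

theorem taskSpr : TaskSpr := by
  intro K _ a b hA L _ _ _ _ hodd v hv
  let pb := Field.powerBasisOfFiniteOfSeparable K L
  have hu : ∀ i, ∃ f : K[X], v i = aeval pb.gen f := fun i => pb.exists_eq_aeval' (v i)
  choose u hu using hu
  have hirr : Irreducible (minpoly K pb.gen) := minpoly.irreducible pb.isIntegral_gen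
  have hdeg : Odd (minpoly K pb.gen).natDegree := by
    rw [pb.natDegree_minpoly, ← pb.finrank]
    exact hodd
  have hdvd : minpoly K pb.gen ∣ qf (C a) (C b) u := by
    rw [minpoly.dvd_iff]
    rw [← hv]
    unfold qf
    simp only [map_add, map_mul, map_pow, aeval_C, hu]
  have h := main hA _ _ hirr rfl hdeg u hdvd
  funext i
  rw [hu i, Pi.zero_apply]
  exact (minpoly.dvd_iff).mp (h i)

end Pool.Agent.H271CDQ
end

/-! ## H227R3/CDQ/Max -/
section
namespace H227CDQ

open Pool.Agent.H379R3.CDQ

lemma qf_map {R S : Type} [CommRing R] [CommRing S] (φ : R →+* S) (a b : R) (v : Fin 6 → R) :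
    φ (qf a b v) = qf (φ a) (φ b) (fun i => φ (v i)) := by
  simp [qf]

/-- anisotropy over a subset -/
def AS {L : Type} [Field L] (a b : L) (S : Set L) : Prop :=
  ∀ v : Fin 6 → L, (∀ i, v i ∈ S) → qf a b v = 0 → v = 0

lemma anis_iff {F L : Type} [Field F] [Field L] (φ : F →+* L) (a b : F) :
    Anis F a b ↔ AS (φ a) (φ b) (Set.range φ) := by
  constructor
  · intro h v hv hq
    choose u hu using hv
    have hv' : v = fun i => φ (u i) := by funext i; rw [hu]
    rw [hv', ← qf_map] at hq
    have h0 : qf a b u = 0 := by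
      apply φ.injective
      rw [hq, map_zero]
    have := h u h0
    rw [hv', this]
    funext i
    simp
  · intro h v hq
    have h1 := h (fun i => φ (v i)) (fun i => ⟨v i, rfl⟩) (by rw [← qf_map, hq, map_zero])
    funext i
    have h2 := congrFun h1 i
    simp only [Pi.zero_apply] at h2 ⊢
    exact φ.injective (by rw [h2, map_zero])

theorem taskMax : TaskMax := by
  intro hspr K _ _ a b hK
  let L := SeparableClosure K
  let S : Set (IntermediateField K L) :=
    {F | AS (algebraMap K L a) (algebraMap K L b) (F : Set L)}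
  have hbot : (⊥ : IntermediateField K L) ∈ S := by
    have h := (anis_iff (algebraMap K L) a b).1 hK
    intro v hv
    apply h v
    intro i
    exact IntermediateField.mem_bot.1 (hv i)
  obtain ⟨F, -, hF⟩ := zorn_le_nonempty₀ S (by
    intro c hc hch y hy
    refine ⟨sSup c, ?_, fun z hz => le_sSup hz⟩
    intro v hv
    have : Nonempty c := ⟨⟨y, hy⟩⟩
    have hdir : Directed (· ≤ ·) (fun F : c => (F : IntermediateField K L)) := hch.directed
    have hmem : ∀ i, ∃ F : c, v i ∈ (F : IntermediateField K L) := by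
      intro i
      have h1 : v i ∈ ((⨆ F : c, (F : IntermediateField K L)) : IntermediateField K L) := by
        have := hv i
        rw [sSup_eq_iSup'] at this
        exact this
      have h2 := IntermediateField.coe_iSup_of_directed hdir
      have h3 : v i ∈ ⋃ F : c, ((F : IntermediateField K L) : Set L) := by
        rw [← h2]; exact h1
      simpa using h3
    choose g hg using hmem
    obtain ⟨M, hM⟩ := hdir.finite_le g
    exact hc M.2 v (fun i => hM i (hg i))) ⊥ hbot
  have hFS : F ∈ S := hF.prop
  refine ⟨F, inferInstance, ?_, algebraMap K F a, algebraMap K F b, ?_, ?_⟩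
  · exact charP_of_injective_algebraMap (algebraMap K F).injective 2
  · rw [anis_iff (algebraMap F L)]
    intro v hv
    apply hFS v
    intro i
    obtain ⟨x, hx⟩ := hv i
    rw [← hx]
    exact x.2
  · intro E _ _ _ _ hodd
    have hAF : Anis F (algebraMap K F a) (algebraMap K F b) := by
      rw [anis_iff (algebraMap F L)]
      intro v hv
      apply hFS v
      intro i
      obtain ⟨x, hx⟩ := hv i
      rw [← hx]
      exact x.2
    have hAE := hspr F _ _ hAF E hodd
    let φ : E →ₐ[F] L := IsSepClosed.lift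
    have hAE' := (anis_iff φ.toRingHom _ _).1 hAE
    let F' : IntermediateField K L := φ.fieldRange.restrictScalars K
    have hle : F ≤ F' := by
      intro x hx
      have : (algebraMap F L ⟨x, hx⟩) ∈ φ.fieldRange := φ.fieldRange.algebraMap_mem _
      exact this
    have hF' : F' ∈ S := by
      intro v hv hq
      apply hAE' v
      · intro i
        have := hv i
        exact this
      · have h1 : φ.toRingHom (algebraMap F E (algebraMap K F a)) = algebraMap K L a :=
          φ.commutes _
        have h2 : φ.toRingHom (algebraMap F E (algebraMap K F b)) = algebraMap K L b :=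
          φ.commutes _
        rw [h1, h2]
        exact hq
    have hge : F' ≤ F := hF.le_of_ge hF' hle
    have hb : (⊥ : IntermediateField F E) = ⊤ := by
      rw [eq_top_iff]
      intro x _
      have hx : φ x ∈ F := hge (show φ x ∈ φ.fieldRange from ⟨x, rfl⟩)
      refine IntermediateField.mem_bot.2 ⟨⟨φ x, hx⟩, ?_⟩
      apply φ.toRingHom.injective
      exact φ.commutes (⟨φ x, hx⟩ : F)
    exact IntermediateField.bot_eq_top_iff_finrank_eq_one.1 hb

end H227CDQ
end

/-! ## H379R3/CDQ/AnOwn -/
section
namespace Pool.Agent.H379R3.CDQ.AnAux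

open Polynomial

def N {R : Type} [CommRing R] (x y : R) : R := x ^ 2 + x * y + y ^ 2

theorem coeffN {E : Type} [Field E] (p q : E[X]) (n : ℕ) (hp : p.natDegree ≤ n)
    (hq : q.natDegree ≤ n) : (N p q).coeff (n + n) = N (p.coeff n) (q.coeff n) := by
  simp only [N, pow_two, coeff_add, coeff_mul_add_eq_of_natDegree_le hp hp,
    coeff_mul_add_eq_of_natDegree_le hp hq, coeff_mul_add_eq_of_natDegree_le hq hq]

theorem natDegN {E : Type} [Field E] (p q : E[X]) (n : ℕ) (hp : p.natDegree ≤ n)
    (hq : q.natDegree ≤ n) : (N p q).natDegree ≤ n + n := by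
  unfold N
  rw [pow_two, pow_two]
  refine (natDegree_add_le_of_degree_le (natDegree_add_le_of_degree_le
    (natDegree_mul_le_of_le hp hp) (natDegree_mul_le_of_le hp hq))
    (natDegree_mul_le_of_le hq hq))

theorem step1 {E : Type} [Field E] (hN : ∀ x y : E, N x y = 0 → x = 0 ∧ y = 0) :
    ∀ (n : ℕ) (p q r s : E[X]), (∀ j, n ≤ j → p.coeff j = 0) → (∀ j, n ≤ j → q.coeff j = 0) →
      (∀ j, n ≤ j → r.coeff j = 0) → (∀ j, n ≤ j → s.coeff j = 0) →
      N p q + X * N r s = 0 → p = 0 ∧ q = 0 ∧ r = 0 ∧ s = 0 := by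
  intro n
  induction n with
  | zero =>
    intro p q r s hp hq hr hs _
    exact ⟨ext fun j => hp j (Nat.zero_le j), ext fun j => hq j (Nat.zero_le j),
      ext fun j => hr j (Nat.zero_le j), ext fun j => hs j (Nat.zero_le j)⟩
  | succ n ih =>
    intro p q r s hp hq hr hs h
    have dp : p.natDegree ≤ n := natDegree_le_iff_coeff_eq_zero.2 fun j hj => hp j hj
    have dq : q.natDegree ≤ n := natDegree_le_iff_coeff_eq_zero.2 fun j hj => hq j hj
    have dr : r.natDegree ≤ n := natDegree_le_iff_coeff_eq_zero.2 fun j hj => hr j hj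
    have ds : s.natDegree ≤ n := natDegree_le_iff_coeff_eq_zero.2 fun j hj => hs j hj
    have e1 : N (r.coeff n) (s.coeff n) = 0 := by
      have := congrArg (fun P => P.coeff (n + n + 1)) h
      simp only [coeff_add, coeff_X_mul, coeff_zero] at this
      rw [coeffN r s n dr ds, coeff_eq_zero_of_natDegree_lt
        (lt_of_le_of_lt (natDegN p q n dp dq) (Nat.lt_succ_self _)), zero_add] at this
      exact this
    obtain ⟨r0, s0⟩ := hN _ _ e1
    have hr' : ∀ j, n ≤ j → r.coeff j = 0 := fun j hj => by
      rcases Nat.eq_or_lt_of_le hj with rfl | hj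
      · exact r0
      · exact hr j hj
    have hs' : ∀ j, n ≤ j → s.coeff j = 0 := fun j hj => by
      rcases Nat.eq_or_lt_of_le hj with rfl | hj
      · exact s0
      · exact hs j hj
    have e2 : N (p.coeff n) (q.coeff n) = 0 := by
      have := congrArg (fun P => P.coeff (n + n)) h
      simp only [coeff_add, coeff_zero] at this
      rw [coeffN p q n dp dq] at this
      have h3 : (X * N r s).coeff (n + n) = 0 := by
        rcases n with _ | m
        · simp
        · have dr' : r.natDegree ≤ m := natDegree_le_iff_coeff_eq_zero.2 fun j hj => hr' j hj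
          have ds' : s.natDegree ≤ m := natDegree_le_iff_coeff_eq_zero.2 fun j hj => hs' j hj
          rw [show m + 1 + (m + 1) = (m + m + 1) + 1 from by ring, coeff_X_mul]
          exact coeff_eq_zero_of_natDegree_lt
            (lt_of_le_of_lt (natDegN r s m dr' ds') (Nat.lt_succ_self _))
      rw [h3, add_zero] at this
      exact this
    obtain ⟨p0, q0⟩ := hN _ _ e2
    refine ih p q r s ?_ ?_ hr' hs' h
    · intro j hj
      rcases Nat.eq_or_lt_of_le hj with rfl | hj
      · exact p0
      · exact hp j hj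
    · intro j hj
      rcases Nat.eq_or_lt_of_le hj with rfl | hj
      · exact q0
      · exact hq j hj

theorem step2 {E : Type} [Field E] (c : E)
    (hT : ∀ x y z w : E, N x y + c * N z w = 0 → x = 0 ∧ y = 0 ∧ z = 0 ∧ w = 0) :
    ∀ (n : ℕ) (p q t u r s : E[X]), (∀ j, n ≤ j → p.coeff j = 0) →
      (∀ j, n ≤ j → q.coeff j = 0) → (∀ j, n ≤ j → t.coeff j = 0) →
      (∀ j, n ≤ j → u.coeff j = 0) →
      (∀ j, n ≤ j → r.coeff j = 0) → (∀ j, n ≤ j → s.coeff j = 0) →
      N p q + C c * N t u + X * N r s = 0 →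
      p = 0 ∧ q = 0 ∧ t = 0 ∧ u = 0 ∧ r = 0 ∧ s = 0 := by
  have hN : ∀ x y : E, N x y = 0 → x = 0 ∧ y = 0 := fun x y h => by
    obtain ⟨h1, h2, -, -⟩ := hT x y 0 0 (by rw [h]; simp [N])
    exact ⟨h1, h2⟩
  intro n
  induction n with
  | zero =>
    intro p q t u r s hp hq ht hu hr hs _
    exact ⟨ext fun j => hp j (Nat.zero_le j), ext fun j => hq j (Nat.zero_le j),
      ext fun j => ht j (Nat.zero_le j), ext fun j => hu j (Nat.zero_le j),
      ext fun j => hr j (Nat.zero_le j), ext fun j => hs j (Nat.zero_le j)⟩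
  | succ n ih =>
    intro p q t u r s hp hq ht hu hr hs h
    have dp : p.natDegree ≤ n := natDegree_le_iff_coeff_eq_zero.2 fun j hj => hp j hj
    have dq : q.natDegree ≤ n := natDegree_le_iff_coeff_eq_zero.2 fun j hj => hq j hj
    have dt : t.natDegree ≤ n := natDegree_le_iff_coeff_eq_zero.2 fun j hj => ht j hj
    have du : u.natDegree ≤ n := natDegree_le_iff_coeff_eq_zero.2 fun j hj => hu j hj
    have dr : r.natDegree ≤ n := natDegree_le_iff_coeff_eq_zero.2 fun j hj => hr j hj
    have ds : s.natDegree ≤ n := natDegree_le_iff_coeff_eq_zero.2 fun j hj => hs j hj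
    have e1 : N (r.coeff n) (s.coeff n) = 0 := by
      have := congrArg (fun P => P.coeff (n + n + 1)) h
      simp only [coeff_add, coeff_X_mul, coeff_zero, coeff_C_mul] at this
      rw [coeffN r s n dr ds, coeff_eq_zero_of_natDegree_lt
        (lt_of_le_of_lt (natDegN p q n dp dq) (Nat.lt_succ_self _)),
        coeff_eq_zero_of_natDegree_lt
        (lt_of_le_of_lt (natDegN t u n dt du) (Nat.lt_succ_self _)), mul_zero, zero_add,
        zero_add] at this
      exact this
    obtain ⟨r0, s0⟩ := hN _ _ e1
    have hr' : ∀ j, n ≤ j → r.coeff j = 0 := fun j hj => by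
      rcases Nat.eq_or_lt_of_le hj with rfl | hj
      · exact r0
      · exact hr j hj
    have hs' : ∀ j, n ≤ j → s.coeff j = 0 := fun j hj => by
      rcases Nat.eq_or_lt_of_le hj with rfl | hj
      · exact s0
      · exact hs j hj
    have e2 : N (p.coeff n) (q.coeff n) + c * N (t.coeff n) (u.coeff n) = 0 := by
      have := congrArg (fun P => P.coeff (n + n)) h
      simp only [coeff_add, coeff_zero, coeff_C_mul] at this
      rw [coeffN p q n dp dq, coeffN t u n dt du] at this
      have h3 : (X * N r s).coeff (n + n) = 0 := by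
        rcases n with _ | m
        · simp
        · have dr' : r.natDegree ≤ m := natDegree_le_iff_coeff_eq_zero.2 fun j hj => hr' j hj
          have ds' : s.natDegree ≤ m := natDegree_le_iff_coeff_eq_zero.2 fun j hj => hs' j hj
          rw [show m + 1 + (m + 1) = (m + m + 1) + 1 from by ring, coeff_X_mul]
          exact coeff_eq_zero_of_natDegree_lt
            (lt_of_le_of_lt (natDegN r s m dr' ds') (Nat.lt_succ_self _))
      rw [h3, add_zero] at this
      exact this
    obtain ⟨p0, q0, t0, u0⟩ := hT _ _ _ _ e2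
    refine ih p q t u r s ?_ ?_ ?_ ?_ hr' hs' h
    · intro j hj
      rcases Nat.eq_or_lt_of_le hj with rfl | hj
      · exact p0
      · exact hp j hj
    · intro j hj
      rcases Nat.eq_or_lt_of_le hj with rfl | hj
      · exact q0
      · exact hq j hj
    · intro j hj
      rcases Nat.eq_or_lt_of_le hj with rfl | hj
      · exact t0
      · exact ht j hj
    · intro j hj
      rcases Nat.eq_or_lt_of_le hj with rfl | hj
      · exact u0
      · exact hu j hj

/-- Common denominators in `RatFunc E`. -/
theorem clear (E : Type) [Field E] {m : ℕ} (v : Fin m → RatFunc E) :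
    ∃ (d : E[X]) (_ : d ≠ 0) (p : Fin m → E[X]),
      ∀ i, algebraMap E[X] (RatFunc E) d * v i = algebraMap E[X] (RatFunc E) (p i) := by
  obtain ⟨b, hb⟩ := IsLocalization.exist_integer_multiples_of_finite
    (nonZeroDivisors E[X]) v
  choose p hp using hb
  refine ⟨b, nonZeroDivisors.coe_ne_zero b, p, fun i => ?_⟩
  rw [hp i, Algebra.smul_def]

theorem bound {E : Type} [Field E] {m : ℕ} (p : Fin m → E[X]) :
    ∃ n, ∀ i j, n ≤ j → (p i).coeff j = 0 := by
  refine ⟨(∑ i, (p i).natDegree) + 1, fun i j hj => coeff_eq_zero_of_natDegree_lt ?_⟩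
  have := Finset.single_le_sum (f := fun i => (p i).natDegree) (fun _ _ => Nat.zero_le _)
    (Finset.mem_univ i)
  omega

theorem hT1 : ∀ x y z w : RatFunc (ZMod 2), N x y + RatFunc.X * N z w = 0 →
    x = 0 ∧ y = 0 ∧ z = 0 ∧ w = 0 := by
  intro x y z w h
  obtain ⟨d, hd, p, hp⟩ := clear (ZMod 2) ![x, y, z, w]
  obtain ⟨n, hn⟩ := bound p
  have hd' : algebraMap (ZMod 2)[X] (RatFunc (ZMod 2)) d ≠ 0 := by
    intro h0
    exact hd ((IsFractionRing.injective (ZMod 2)[X] (RatFunc (ZMod 2))) (by rw [h0, map_zero]))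
  have h0 := hp 0
  have h1 := hp 1
  have h2 := hp 2
  have h3 := hp 3
  simp at h0 h1 h2 h3
  have key : N (p 0) (p 1) + X * N (p 2) (p 3) = 0 := by
    apply IsFractionRing.injective (ZMod 2)[X] (RatFunc (ZMod 2))
    rw [map_zero, map_add, map_mul, RatFunc.algebraMap_X]
    simp only [N, map_add, map_mul, map_pow, ← h0, ← h1, ← h2, ← h3]
    simp only [N] at h
    linear_combination (algebraMap (ZMod 2)[X] (RatFunc (ZMod 2)) d) ^ 2 * h
  obtain ⟨a0, a1, a2, a3⟩ := step1 (E := ZMod 2) (by unfold N; decide) n _ _ _ _ (hn 0) (hn 1)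
    (hn 2) (hn 3) key
  rw [a0, map_zero] at h0
  rw [a1, map_zero] at h1
  rw [a2, map_zero] at h2
  rw [a3, map_zero] at h3
  exact ⟨(mul_eq_zero.1 h0).resolve_left hd', (mul_eq_zero.1 h1).resolve_left hd',
    (mul_eq_zero.1 h2).resolve_left hd', (mul_eq_zero.1 h3).resolve_left hd'⟩

end Pool.Agent.H379R3.CDQ.AnAux

namespace Pool.Agent.H379R3.CDQ

open Polynomial in
theorem taskAn_own : TaskAn := by
  haveI : CharP (RatFunc (ZMod 2)) 2 := charP_of_injective_algebraMap
    (algebraMap (ZMod 2) (RatFunc (ZMod 2))).injective 2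
  haveI : CharP (RatFunc (RatFunc (ZMod 2))) 2 := charP_of_injective_algebraMap
    (algebraMap (RatFunc (ZMod 2)) (RatFunc (RatFunc (ZMod 2)))).injective 2
  refine ⟨RatFunc (RatFunc (ZMod 2)), inferInstance, inferInstance,
    RatFunc.C RatFunc.X, RatFunc.X, ?_⟩
  intro v h
  set E := RatFunc (ZMod 2)
  obtain ⟨d, hd, p, hp⟩ := AnAux.clear E v
  obtain ⟨n, hn⟩ := AnAux.bound p
  have hd' : algebraMap E[X] (RatFunc E) d ≠ 0 := by
    intro h0
    exact hd ((IsFractionRing.injective E[X] (RatFunc E)) (by rw [h0, map_zero]))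
  have key : AnAux.N (p 0) (p 1) + C RatFunc.X * AnAux.N (p 2) (p 3)
      + X * AnAux.N (p 4) (p 5) = 0 := by
    apply IsFractionRing.injective E[X] (RatFunc E)
    rw [map_zero, map_add, map_add, map_mul, map_mul, RatFunc.algebraMap_X, RatFunc.algebraMap_C]
    simp only [AnAux.N, map_add, map_mul, map_pow, ← hp]
    simp only [qf] at h
    linear_combination (algebraMap E[X] (RatFunc E) d) ^ 2 * h
  obtain ⟨a0, a1, a2, a3, a4, a5⟩ := AnAux.step2 (RatFunc.X : E) AnAux.hT1 n _ _ _ _ _ _
    (hn 0) (hn 1) (hn 2) (hn 3) (hn 4) (hn 5) key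
  funext i
  have hi := hp i
  have hpi : p i = 0 := by fin_cases i <;> assumption
  rw [hpi, map_zero] at hi
  exact (mul_eq_zero.1 hi).resolve_left hd'

end Pool.Agent.H379R3.CDQ
end

/-! ## H347/CDQ/Idx -/
section
namespace Pool.Agent.H347.CDQ

open Pool.Agent.H379R3.CDQ

theorem taskIdx : TaskIdx := by
  intro k _ hodd U hU
  haveI : Finite (GG k ⧸ U) := Subgroup.quotient_finite_of_isOpen U hU
  haveI : U.FiniteIndex := Subgroup.finiteIndex_of_finite_quotient
  have hUc : IsClosed (U : Set (GG k)) := Subgroup.isClosed_of_isOpen U hU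
  have hNc : IsClosed (U.normalCore : Set (GG k)) := U.normalCore_isClosed hUc
  have hNo : IsOpen (U.normalCore : Set (GG k)) :=
    Subgroup.isOpen_of_isClosed_of_finiteIndex _ hNc
  haveI : Finite (GG k ⧸ U.normalCore) := Subgroup.quotient_finite_of_isOpen _ hNo
  obtain ⟨P⟩ : Nonempty (Sylow 2 (GG k ⧸ U.normalCore)) := inferInstance
  have hNV : U.normalCore ≤
      (P : Subgroup (GG k ⧸ U.normalCore)).comap (QuotientGroup.mk' U.normalCore) := by
    intro x hx
    rw [Subgroup.mem_comap]
    have : QuotientGroup.mk' U.normalCore x = 1 := by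
      rwa [QuotientGroup.mk'_apply, QuotientGroup.eq_one_iff]
    rw [this]
    exact one_mem _
  have hVo : IsOpen (((P : Subgroup (GG k ⧸ U.normalCore)).comap
      (QuotientGroup.mk' U.normalCore) : Subgroup (GG k)) : Set (GG k)) :=
    Subgroup.isOpen_mono hNV hNo
  have hVi : ((P : Subgroup (GG k ⧸ U.normalCore)).comap
      (QuotientGroup.mk' U.normalCore)).index = (P : Subgroup (GG k ⧸ U.normalCore)).index :=
    Subgroup.index_comap_of_surjective _ (QuotientGroup.mk'_surjective _)
  have hPi : ¬ 2 ∣ (P : Subgroup (GG k ⧸ U.normalCore)).index := P.not_dvd_index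
  generalize hV : (P : Subgroup (GG k ⧸ U.normalCore)).comap
      (QuotientGroup.mk' U.normalCore) = V at *
  have hVc : IsClosed (V : Set (GG k)) := Subgroup.isClosed_of_isOpen V hVo
  have hodd' : Odd V.index := by
    rw [hVi]
    exact Nat.not_even_iff_odd.mp (fun h => hPi h.two_dvd)
  have hfix : (IntermediateField.fixedField V).fixingSubgroup = V :=
    InfiniteGalois.fixingSubgroup_fixedField ⟨V, hVc⟩
  have hrank : Module.finrank k (IntermediateField.fixedField V) = V.index := by
    rw [IntermediateField.finrank_eq_fixingSubgroup_index, hfix]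
  haveI hfd : FiniteDimensional k (IntermediateField.fixedField V) := by
    apply Module.finite_of_finrank_pos
    rw [hrank]
    exact hodd'.pos
  have h1 : Module.finrank k (IntermediateField.fixedField V) = 1 :=
    hodd (IntermediateField.fixedField V) (by rw [hrank]; exact hodd')
  have hPt : (P : Subgroup (GG k ⧸ U.normalCore)) = ⊤ :=
    Subgroup.index_eq_one.mp (by rw [← hVi, ← hrank]; exact h1)
  have hp : IsPGroup 2 (GG k ⧸ U.normalCore) := by
    have h2 := P.isPGroup'
    intro g
    obtain ⟨j, hj⟩ := h2 ⟨g, by rw [hPt]; trivial⟩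
    exact ⟨j, by simpa using congrArg Subtype.val hj⟩
  obtain ⟨n, hn⟩ := IsPGroup.iff_card.mp hp
  have hd : U.index ∣ 2 ^ n := by
    have : U.normalCore.index = 2 ^ n := by
      rw [← hn]
      rfl
    rw [← this]
    exact Subgroup.index_dvd_of_le U.normalCore_le
  obtain ⟨m, _, hm⟩ := (Nat.dvd_prime_pow Nat.prime_two).mp hd
  exact ⟨m, hm⟩

end Pool.Agent.H347.CDQ
end

/-! ## H594/CDQ/Sm -/
section
namespace Pool.Agent.H379R3.CDQ

namespace SmAux

open MvPolynomial

variable {k : Type} [Field k]

lemma homFP (a b : k) : (FP a b).IsHomogeneous 2 := by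
  have hX : ∀ i j : Fin 6, (X i * X j : MvPolynomial (Fin 6) k).IsHomogeneous 2 := fun i j =>
    (isHomogeneous_X k i).mul (isHomogeneous_X k j)
  have hX2 : ∀ i : Fin 6, (X i ^ 2 : MvPolynomial (Fin 6) k).IsHomogeneous 2 := fun i => by
    rw [sq]; exact hX i i
  have hN : ∀ i j : Fin 6, (X i ^ 2 + X i * X j + X j ^ 2 : MvPolynomial (Fin 6) k).IsHomogeneous 2 :=
    fun i j => ((hX2 i).add (hX i j)).add (hX2 j)
  have hC : ∀ (c : k) (p : MvPolynomial (Fin 6) k), p.IsHomogeneous 2 →
      (C c * p).IsHomogeneous 2 := fun c p hp => by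
    have := (isHomogeneous_C (Fin 6) c).mul hp
    rwa [zero_add] at this
  exact ((hN 0 1).add (hC a _ (hN 2 3))).add (hC b _ (hN 4 5))

lemma homGP : (GP k).IsHomogeneous 2 := by
  have hX : ∀ i j : Fin 6, (X i * X j : MvPolynomial (Fin 6) k).IsHomogeneous 2 := fun i j =>
    (isHomogeneous_X k i).mul (isHomogeneous_X k j)
  exact ((hX 0 1).add (hX 2 3)).add (hX 4 5)

lemma block {K : Type} [Field K] {x y : K} (h1 : x * y = 0) (h2 : x ^ 2 + x * y + y ^ 2 = 0) :
    x = 0 ∧ y = 0 := by
  rcases mul_eq_zero.1 h1 with h | h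
  · subst h
    simp at h2
    exact ⟨rfl, h2⟩
  · subst h
    simp at h2
    exact ⟨h2, rfl⟩

end SmAux

open SmAux MvPolynomial in
theorem taskSm : TaskSm := by
  intro k _ _ a b ha hb ha1 hb1 hab
  refine ⟨homFP a b, homGP, ?_⟩
  intro v hv hF hG
  have h2k : (2 : k) = 0 := by exact_mod_cast CharP.cast_eq_zero k 2
  have h2 : (2 : AlgebraicClosure k) = 0 := by
    rw [← map_ofNat (algebraMap k (AlgebraicClosure k)) 2, h2k, map_zero]
  obtain ⟨A, hA⟩ : ∃ A, A = algebraMap k (AlgebraicClosure k) a := ⟨_, rfl⟩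
  obtain ⟨B, hB⟩ : ∃ B, B = algebraMap k (AlgebraicClosure k) b := ⟨_, rfl⟩
  have inj : Function.Injective (algebraMap k (AlgebraicClosure k)) :=
    (algebraMap k (AlgebraicClosure k)).injective
  have hA0 : A ≠ 0 := by
    rw [hA]; intro h; exact ha (inj (by rw [h, map_zero]))
  have hB0 : B ≠ 0 := by
    rw [hB]; intro h; exact hb (inj (by rw [h, map_zero]))
  have hA1 : A ≠ 1 := by
    rw [hA]; intro h; exact ha1 (inj (by rw [h, map_one]))
  have hB1 : B ≠ 1 := by
    rw [hB]; intro h; exact hb1 (inj (by rw [h, map_one]))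
  have hAB : A ≠ B := by
    rw [hA, hB]; intro h; exact hab (inj h)
  simp only [FP, GP, map_add, map_mul, map_pow, aeval_X, aeval_C] at hF hG
  rw [← hA, ← hB] at hF
  rw [LinearIndependent.pair_iff]
  intro s t hst
  have e : ∀ i, s * aeval v (pderiv i (FP a b)) + t * aeval v (pderiv i (GP k)) = 0 := by
    intro i
    have := congrFun hst i
    simpa using this
  have d0 := e 0
  have d1 := e 1
  have d2 := e 2
  have d3 := e 3
  have d4 := e 4
  have d5 := e 5
  simp [FP, GP, pderiv_X, ← hA, ← hB] at d0 d1 d2 d3 d4 d5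
  have c0 : (s * 1 + t) * v 0 = 0 := by linear_combination d1 - s * v 1 * h2
  have c1 : (s * 1 + t) * v 1 = 0 := by linear_combination d0 - s * v 0 * h2
  have c2 : (s * A + t) * v 2 = 0 := by linear_combination d3 - s * A * v 3 * h2
  have c3 : (s * A + t) * v 3 = 0 := by linear_combination d2 - s * A * v 2 * h2
  have c4 : (s * B + t) * v 4 = 0 := by linear_combination d5 - s * B * v 5 * h2
  have c5 : (s * B + t) * v 5 = 0 := by linear_combination d4 - s * B * v 4 * h2
  by_contra hne
  have two : ∀ p q : AlgebraicClosure k, p ≠ q → s * p + t = 0 → s * q + t ≠ 0 := by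
    intro p q hpq hp hq
    have h3 : s * (p - q) = 0 := by linear_combination hp - hq
    have h4 : s = 0 := (mul_eq_zero.1 h3).resolve_right (sub_ne_zero.2 hpq)
    refine hne ⟨h4, ?_⟩
    rw [h4, zero_mul, zero_add] at hp
    exact hp
  have fin : v 0 = 0 → v 1 = 0 → v 2 = 0 → v 3 = 0 → v 4 = 0 → v 5 = 0 → False := by
    intro h0 h1 h2 h3 h4 h5
    apply hv
    funext i
    fin_cases i <;> assumption
  by_cases q1 : s * 1 + t = 0
  · have q2 := two 1 A hA1.symm q1
    have q3 := two 1 B hB1.symm q1
    have z2 := (mul_eq_zero.1 c2).resolve_left q2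
    have z3 := (mul_eq_zero.1 c3).resolve_left q2
    have z4 := (mul_eq_zero.1 c4).resolve_left q3
    have z5 := (mul_eq_zero.1 c5).resolve_left q3
    rw [z2, z3, z4, z5] at hF hG
    obtain ⟨z0, z1⟩ := block (x := v 0) (y := v 1) (by linear_combination hG)
      (by linear_combination hF)
    exact fin z0 z1 z2 z3 z4 z5
  · have z0 := (mul_eq_zero.1 c0).resolve_left q1
    have z1 := (mul_eq_zero.1 c1).resolve_left q1
    by_cases q2 : s * A + t = 0
    · have q3 := two A B hAB q2
      have z4 := (mul_eq_zero.1 c4).resolve_left q3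
      have z5 := (mul_eq_zero.1 c5).resolve_left q3
      rw [z0, z1, z4, z5] at hF hG
      have hF' : A * (v 2 ^ 2 + v 2 * v 3 + v 3 ^ 2) = 0 := by linear_combination hF
      obtain ⟨z2, z3⟩ := block (x := v 2) (y := v 3) (by linear_combination hG)
        ((mul_eq_zero.1 hF').resolve_left hA0)
      exact fin z0 z1 z2 z3 z4 z5
    · have z2 := (mul_eq_zero.1 c2).resolve_left q2
      have z3 := (mul_eq_zero.1 c3).resolve_left q2
      rw [z0, z1, z2, z3] at hF hG
      have hF' : B * (v 4 ^ 2 + v 4 * v 5 + v 5 ^ 2) = 0 := by linear_combination hF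
      obtain ⟨z4, z5⟩ := block (x := v 4) (y := v 5) (by linear_combination hG)
        ((mul_eq_zero.1 hF').resolve_left hB0)
      exact fin z0 z1 z2 z3 z4 z5

end Pool.Agent.H379R3.CDQ
end

/-! ## H379R3/CDQ/Asm -/
section
namespace Pool.Agent.H379R3.CDQ

theorem anis_ne (k : Type) [Field k] [CharP k 2] (a b : k) (h : Anis k a b) :
    a ≠ 0 ∧ b ≠ 0 ∧ a ≠ 1 ∧ b ≠ 1 ∧ a ≠ b := by
  have h2 : (2 : k) = 0 := CharTwo.two_eq_zero
  refine ⟨?_, ?_, ?_, ?_, ?_⟩
  · rintro rfl
    have := congrFun (h ![0, 0, 1, 0, 0, 0] (by simp [qf])) 2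
    simp at this
  · rintro rfl
    have := congrFun (h ![0, 0, 0, 0, 1, 0] (by simp [qf])) 4
    simp at this
  · rintro rfl
    have := congrFun (h ![1, 0, 1, 0, 0, 0] (by simp [qf]; linear_combination h2)) 0
    simp at this
  · rintro rfl
    have := congrFun (h ![1, 0, 0, 0, 1, 0] (by simp [qf]; linear_combination h2)) 0
    simp at this
  · rintro rfl
    have := congrFun (h ![0, 0, 1, 0, 1, 0] (by simp [qf]; linear_combination a * h2)) 2
    simp at this

theorem final (tDD : TaskDD) (tPer : TaskPer) (tAvg : TaskAvg) (tTr : TaskTr) (tKs : TaskKs)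
    (tOdd : TaskOdd) (tLift : TaskLift) (tF2 : TaskF2) (tStep : TaskStep) (tFix : TaskFix)
    (tFin : TaskFin) (tTors : TaskTors) (tH1 : TaskH1) (tSpr : TaskSpr) (tMax : TaskMax)
    (tAn : TaskAn) (tIdx : TaskIdx) (tSm : TaskSm) : Final := by
  obtain ⟨K, _, _, a0, b0, hK⟩ := tAn
  obtain ⟨k, _, _, a, b, hA, hO⟩ := tMax tSpr K a0 b0 hK
  have hks := tKs tPer tAvg tTr
  have hF2 : ∀ n, 2 ≤ n → F2V (GG k) n := fun n hn => tF2 tDD tLift hks k n hn
  have hP2 : Pro2 (GG k) := tIdx k hO
  have hfin := tFin (tStep tDD tLift) tFix (tOdd tPer tAvg) (GG k)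
  obtain ⟨ha0, hb0, ha1, hb1, hab⟩ := anis_ne k a b hA
  refine ⟨k, inferInstance, inferInstance, ⟨?_, ?_⟩, FP a b, GP k,
    tSm k a b ha0 hb0 ha1 hb1 hab, ?_⟩
  · intro M _ _ hM htors n hn
    refine tTors (GG k) n ?_ M hM htors
    intro M' _ _ _ hM'
    exact hfin M' hM' hP2 n (by omega) (hF2 n (by omega))
  · refine tH1 k 1 ?_
    intro x hx
    have h2 : (2 : k) = 0 := CharTwo.two_eq_zero
    have := congrFun (hA ![x, 1, 0, 0, 0, 0] (by simp [qf]; linear_combination hx + h2)) 1
    simp at this
  · rintro v hv ⟨h1, -⟩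
    apply hv
    apply hA v
    simpa [FP, qf] using h1

end Pool.Agent.H379R3.CDQ
end

namespace Pool.Agent.H379R3.CDQ

theorem main : Final :=
  final taskDD Pool.Agent.H99R3.CDQ.taskPer Pool.Agent.H322R3.CDQ.taskAvg taskTr taskKs
    Pool.Agent.H123R3.CDQ.taskOdd taskLift_own Pool.Agent.H335R3.CDQ.taskF2
    Pool.Agent.H551R3.CDQ.taskStep taskFix Pool.Agent.H584R3.CDQ.taskFin
    Pool.Agent.H940R3.CDQ.taskTors taskH1 Pool.Agent.H271CDQ.taskSpr H227CDQ.taskMax
    taskAn_own Pool.Agent.H347.CDQ.taskIdx taskSm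

end Pool.Agent.H379R3.CDQ
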