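import Pool.Agent.H379R3.CDQ.Stmts

set_option autoImplicit false

namespace Pool.Agent.H379R3.CDQ

/-- d d = 0. -/
theorem taskDD : TaskDD := by
  intro G M _ n h v
  have key : ∀ (i : Fin (n + 1 + 1)),
      (-1 : ℤ) ^ (i : ℕ) • dd h (fun j => v (i.succAbove j)) =
        ∑ j : Fin (n + 1), (-1 : ℤ) ^ ((i : ℕ) + (j : ℕ)) •
          h (fun l => v (i.succAbove (j.succAbove l))) := by
    intro i
    unfold dd
    rw [Finset.smul_sum]
    refine Finset.sum_congr rfl fun j _ => ?_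
    rw [smul_smul, pow_add]
  have h1 : dd (dd h) v = ∑ i : Fin (n + 1 + 1), ∑ j : Fin (n + 1),
      (-1 : ℤ) ^ ((i : ℕ) + (j : ℕ)) • h (fun l => v (i.succAbove (j.succAbove l))) := by
    show (∑ i : Fin (n + 1 + 1), (-1 : ℤ) ^ (i : ℕ) • dd h (fun j => v (i.succAbove j))) = _
    exact Finset.sum_congr rfl fun i _ => key i
  rw [h1, ← Fintype.sum_prod_type' (f := fun (i : Fin (n + 1 + 1)) (j : Fin (n + 1)) =>
      (-1 : ℤ) ^ ((i : ℕ) + (j : ℕ)) • h (fun l => v (i.succAbove (j.succAbove l))))]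
  refine Finset.sum_involution
    (fun (p : Fin (n + 1 + 1) × Fin (n + 1)) _ => (p.1.succAbove p.2, p.2.predAbove p.1))
    ?_ ?_ ?_ ?_
  · rintro ⟨i, j⟩ _
    simp only [Fin.succAbove_succAbove_succAbove_predAbove,
      Fin.neg_one_pow_succAbove_add_predAbove, neg_smul, add_neg_cancel]
  · rintro ⟨i, j⟩ _ _ heq
    exact Fin.succAbove_ne i j (congrArg Prod.fst heq)
  · intro _ _
    exact Finset.mem_univ _
  · rintro ⟨i, j⟩ _
    simp only [Fin.succAbove_succAbove_predAbove, Fin.predAbove_predAbove_succAbove]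

end Pool.Agent.H379R3.CDQ
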